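import Pool.Agent.helper50.EY.ClassE
import Pool.Agent.helper51.EY.CM

set_option autoImplicit false
set_option linter.unusedSectionVars false
set_option linter.unusedSimpArgs false

/-!
# EY-Cnt: counting tools for finite affine schemes (global additivity, elimination, quadratic covers)
-/

namespace EY

open MvPolynomial

noncomputable section

/-! ### translation and additivity at any point -/

section C1

variable {σ : Type*}

/-- translation by `p` -/
def trp (p : σ → ℂ) : MvPolynomial σ ℂ →ₐ[ℂ] MvPolynomial σ ℂ := aeval fun i => X i + C (p i)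

theorem trp_X (p : σ → ℂ) (i : σ) : trp p (X i) = X i + C (p i) := by unfold trp; rw [aeval_X]

theorem trp_trp (p : σ → ℂ) (x : MvPolynomial σ ℂ) : trp (-p) (trp p x) = x := by
  have h : (trp (-p)).comp (trp p) = AlgHom.id ℂ (MvPolynomial σ ℂ) := by
    apply MvPolynomial.algHom_ext
    intro i
    rw [AlgHom.comp_apply, trp_X, map_add, trp_X, AlgHom.id_apply]
    have : trp (-p) (C (p i)) = C (p i) := (trp (-p)).commutes _
    rw [this, Pi.neg_apply, map_neg]
    ring
  exact AlgHom.congr_fun h x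

theorem eval_trp (p x : σ → ℂ) (f : MvPolynomial σ ℂ) : eval x (trp p f) = eval (x + p) f := by
  have h : (eval x).comp (trp p : MvPolynomial σ ℂ →ₐ[ℂ] _).toRingHom = eval (x + p) := by
    apply MvPolynomial.ringHom_ext
    · intro c
      simp [trp]
    · intro i
      simp [trp]
  exact RingHom.congr_fun h f

theorem mulAt_trp (f : σ → MvPolynomial σ ℂ) (p : σ → ℂ) :
    mulAt (Ideal.span (Set.range f)) p = mulAt (Ideal.span (Set.range fun i => trp p (f i))) 0 := by
  have hsurj : Function.Surjective (trp p) := fun x => ⟨trp (-p) x, by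
    have := trp_trp (-p) x
    rwa [neg_neg] at this⟩
  rw [mulAt_map (trp p) hsurj (Ideal.span (Set.range f)) (fun x hx => by
    have h1 := trp_trp p x
    rw [hx, map_zero] at h1
    rw [← h1]; exact Ideal.zero_mem _) p 0 (fun x => by rw [eval_trp, zero_add]), Ideal.map_span]
  congr 2
  exact (Set.range_comp _ _).symm

variable [Fintype σ] [DecidableEq σ]

theorem trp_update (f : σ → MvPolynomial σ ℂ) (i0 : σ) (a : MvPolynomial σ ℂ) (p : σ → ℂ) :
    (fun i => trp p (Function.update f i0 a i)) = Function.update (fun i => trp p (f i)) i0 (trp p a) := by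
  funext i
  by_cases h : i = i0
  · subst h; simp
  · rw [Function.update_of_ne h, Function.update_of_ne h]

theorem cmAdd_at (f : σ → MvPolynomial σ ℂ) (i0 : σ) (a b : MvPolynomial σ ℂ) (p : σ → ℂ)
    (ha : mulAt (Ideal.span (Set.range (Function.update f i0 a))) p ≠ 0)
    (hb : mulAt (Ideal.span (Set.range (Function.update f i0 b))) p ≠ 0) :
    mulAt (Ideal.span (Set.range (Function.update f i0 (a * b)))) p =
      mulAt (Ideal.span (Set.range (Function.update f i0 a))) p +
        mulAt (Ideal.span (Set.range (Function.update f i0 b))) p := by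
  rw [mulAt_trp, trp_update] at ha hb ⊢
  rw [mulAt_trp (Function.update f i0 a), trp_update, mulAt_trp (Function.update f i0 b), trp_update, map_mul]
  exact cmAdd _ i0 _ _ ha hb

/-- a factor not vanishing at `p` may be dropped -/
theorem mulAt_unit (f : σ → MvPolynomial σ ℂ) (i0 : σ) (a b : MvPolynomial σ ℂ) (p : σ → ℂ)
    (hb : eval p b ≠ 0) :
    mulAt (Ideal.span (Set.range (Function.update f i0 (a * b)))) p =
      mulAt (Ideal.span (Set.range (Function.update f i0 a))) p := by
  have h1 : (Ideal.span (Set.range (Function.update f i0 (a * b)))).map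
      (algebraMap (MvPolynomial σ ℂ) (Localization.AtPrime (pt p))) =
      (Ideal.span (Set.range (Function.update f i0 a))).map
      (algebraMap (MvPolynomial σ ℂ) (Localization.AtPrime (pt p))) := by
    apply le_antisymm
    · apply Ideal.map_mono
      rw [Ideal.span_le]
      rintro _ ⟨i, rfl⟩
      by_cases h : i = i0
      · subst h
        rw [Function.update_self]
        exact Ideal.mul_mem_right _ _ (Ideal.subset_span ⟨i, Function.update_self ..⟩)
      · rw [Function.update_of_ne h]
        exact Ideal.subset_span ⟨i, Function.update_of_ne h ..⟩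
    · rw [Ideal.map_le_iff_le_comap, Ideal.span_le]
      rintro _ ⟨i, rfl⟩
      by_cases h : i = i0
      · subst h
        rw [Function.update_self]
        have hu : IsUnit (algebraMap (MvPolynomial σ ℂ) (Localization.AtPrime (pt p)) b) :=
          IsLocalization.map_units (Localization.AtPrime (pt p))
            (⟨b, fun h => hb (mem_pt.mp h)⟩ : (pt p).primeCompl)
        obtain ⟨u, hu⟩ := hu
        have h2 : algebraMap (MvPolynomial σ ℂ) (Localization.AtPrime (pt p)) (a * b) ∈
            (Ideal.span (Set.range (Function.update f i (a * b)))).map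
              (algebraMap (MvPolynomial σ ℂ) (Localization.AtPrime (pt p))) :=
          Ideal.mem_map_of_mem _ (Ideal.subset_span ⟨i, Function.update_self ..⟩)
        change algebraMap (MvPolynomial σ ℂ) (Localization.AtPrime (pt p)) a ∈
          (Ideal.span (Set.range (Function.update f i (a * b)))).map
            (algebraMap (MvPolynomial σ ℂ) (Localization.AtPrime (pt p)))
        have h3 : algebraMap (MvPolynomial σ ℂ) (Localization.AtPrime (pt p)) a =
            algebraMap (MvPolynomial σ ℂ) (Localization.AtPrime (pt p)) (a * b) * ↑u⁻¹ := by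
          rw [map_mul, ← hu, mul_assoc, Units.mul_inv, mul_one]
        rw [h3]
        exact Ideal.mul_mem_right _ _ h2
      · rw [Function.update_of_ne h]
        exact Ideal.mem_map_of_mem _ (Ideal.subset_span ⟨i, Function.update_of_ne h ..⟩)
  unfold mulAt
  rw [h1]

omit [Fintype σ] [DecidableEq σ] in
theorem eval_span_zero' {A : Set (MvPolynomial σ ℂ)} {x : σ → ℂ} (hx : ∀ g ∈ A, eval x g = 0)
    {f : MvPolynomial σ ℂ} (hf : f ∈ Ideal.span A) : eval x f = 0 := by
  have h1 : Ideal.span A ≤ RingHom.ker (eval x) := Ideal.span_le.mpr fun g hg => RingHom.mem_ker.mpr (hx g hg)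
  exact RingHom.mem_ker.mp (h1 hf)

theorem zero_iff_update {f : σ → MvPolynomial σ ℂ} {i0 : σ} {a : MvPolynomial σ ℂ} {p : σ → ℂ} :
    (∀ g ∈ Ideal.span (Set.range (Function.update f i0 a)), eval p g = 0) ↔
      eval p a = 0 ∧ ∀ j, j ≠ i0 → eval p (f j) = 0 := by
  constructor
  · intro h
    refine ⟨h a (Ideal.subset_span ⟨i0, Function.update_self ..⟩), fun j hj => ?_⟩
    exact h (f j) (Ideal.subset_span ⟨j, Function.update_of_ne hj ..⟩)
  · rintro ⟨h1, h2⟩ g hg
    refine eval_span_zero' ?_ hg
    rintro _ ⟨j, rfl⟩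
    by_cases hj : j = i0
    · subst hj; rw [Function.update_self]; exact h1
    · rw [Function.update_of_ne hj]; exact h2 j hj

/-- (C1) global additivity -/
theorem cnt_mul (f : σ → MvPolynomial σ ℂ) (i0 : σ) (a b : MvPolynomial σ ℂ)
    (ha : Module.Finite ℂ (MvPolynomial σ ℂ ⧸ Ideal.span (Set.range (Function.update f i0 a))))
    (hb : Module.Finite ℂ (MvPolynomial σ ℂ ⧸ Ideal.span (Set.range (Function.update f i0 b)))) :
    Module.Finite ℂ (MvPolynomial σ ℂ ⧸ Ideal.span (Set.range (Function.update f i0 (a * b)))) ∧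
    Module.finrank ℂ (MvPolynomial σ ℂ ⧸ Ideal.span (Set.range (Function.update f i0 (a * b)))) =
      Module.finrank ℂ (MvPolynomial σ ℂ ⧸ Ideal.span (Set.range (Function.update f i0 a))) +
      Module.finrank ℂ (MvPolynomial σ ℂ ⧸ Ideal.span (Set.range (Function.update f i0 b))) := by
  classical
  set J : Ideal (MvPolynomial σ ℂ) := Ideal.span (f '' {i0}ᶜ) with hJ
  have hspan : ∀ c : MvPolynomial σ ℂ, Ideal.span (Set.range (Function.update f i0 c)) = J ⊔ Ideal.span {c} := by
    intro c
    rw [hJ, ← Ideal.span_union]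
    congr 1
    ext x
    constructor
    · rintro ⟨j, rfl⟩
      by_cases hj : j = i0
      · subst hj; rw [Function.update_self]; right; rfl
      · rw [Function.update_of_ne hj]; left; exact ⟨j, hj, rfl⟩
    · rintro (⟨j, hj, rfl⟩ | hx)
      · exact ⟨j, Function.update_of_ne hj ..⟩
      · rw [Set.mem_singleton_iff] at hx
        subst hx
        exact ⟨i0, Function.update_self ..⟩
  have hfin : Module.Finite ℂ (MvPolynomial σ ℂ ⧸ Ideal.span (Set.range (Function.update f i0 (a * b)))) := by
    rw [hspan] at ha hb ⊢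
    exact finite_mul (k := ℂ) J a b ha hb
  refine ⟨hfin, ?_⟩
  set Ia := Ideal.span (Set.range (Function.update f i0 a)) with hIa
  set Ib := Ideal.span (Set.range (Function.update f i0 b)) with hIb
  set Iab := Ideal.span (Set.range (Function.update f i0 (a * b))) with hIab
  set Za := (finite_zeros Ia ha).toFinset with hZa
  set Zb := (finite_zeros Ib hb).toFinset with hZb
  set Zab := (finite_zeros Iab hfin).toFinset with hZab
  have mza : ∀ p, p ∈ Za ↔ ∀ g ∈ Ia, eval p g = 0 := fun p => by rw [hZa, Set.Finite.mem_toFinset]; rfl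
  have mzb : ∀ p, p ∈ Zb ↔ ∀ g ∈ Ib, eval p g = 0 := fun p => by rw [hZb, Set.Finite.mem_toFinset]; rfl
  have mzab : ∀ p, p ∈ Zab ↔ ∀ g ∈ Iab, eval p g = 0 := fun p => by rw [hZab, Set.Finite.mem_toFinset]; rfl
  obtain ⟨la, ra⟩ := finrank_eq_sum_mulAt Ia Za mza
  obtain ⟨lb, rb⟩ := finrank_eq_sum_mulAt Ib Zb mzb
  obtain ⟨-, rab⟩ := finrank_eq_sum_mulAt Iab Zab mzab
  have hsub1 : Za ⊆ Zab := by
    intro p hp
    rw [mzab, hIab, zero_iff_update]
    rw [mza, hIa, zero_iff_update] at hp
    exact ⟨by rw [map_mul, hp.1, zero_mul], hp.2⟩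
  have hsub2 : Zb ⊆ Zab := by
    intro p hp
    rw [mzab, hIab, zero_iff_update]
    rw [mzb, hIb, zero_iff_update] at hp
    exact ⟨by rw [map_mul, hp.1, mul_zero], hp.2⟩
  have ea : ∑ p ∈ Za, mulAt Ia p = ∑ p ∈ Zab, mulAt Ia p := by
    apply Finset.sum_subset hsub1
    intro p _ hp
    rw [mza] at hp
    push Not at hp
    obtain ⟨g, hg, hgp⟩ := hp
    exact mulAt_eq_zero hg hgp
  have eb : ∑ p ∈ Zb, mulAt Ib p = ∑ p ∈ Zab, mulAt Ib p := by
    apply Finset.sum_subset hsub2
    intro p _ hp
    rw [mzb] at hp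
    push Not at hp
    obtain ⟨g, hg, hgp⟩ := hp
    exact mulAt_eq_zero hg hgp
  rw [ra, rb, rab, ea, eb, ← Finset.sum_add_distrib]
  apply Finset.sum_congr rfl
  intro p hp
  rw [mzab, hIab, zero_iff_update] at hp
  by_cases h1 : eval p a = 0
  · by_cases h2 : eval p b = 0
    · exact cmAdd_at f i0 a b p
        (mulAt_ne_zero (zero_iff_update.mpr ⟨h1, hp.2⟩) (la p))
        (mulAt_ne_zero (zero_iff_update.mpr ⟨h2, hp.2⟩) (lb p))
    · rw [mulAt_unit f i0 a b p h2]
      have h3 : mulAt Ib p = 0 := mulAt_eq_zero (f := b)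
        (Ideal.subset_span ⟨i0, Function.update_self ..⟩) h2
      rw [h3, add_zero]
  · have h3 : mulAt Ia p = 0 := mulAt_eq_zero (f := a)
        (Ideal.subset_span ⟨i0, Function.update_self ..⟩) h1
    rw [h3, zero_add, hIab, mul_comm a b, mulAt_unit f i0 b a p h1]

/-- a system without zeros -/
theorem cnt_top (I : Ideal (MvPolynomial σ ℂ)) (h : ∀ p : σ → ℂ, ∃ g ∈ I, eval p g ≠ 0) :
    Module.Finite ℂ (MvPolynomial σ ℂ ⧸ I) ∧ Module.finrank ℂ (MvPolynomial σ ℂ ⧸ I) = 0 := by
  have h1 : I = ⊤ := by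
    by_contra hne
    obtain ⟨m, hm, hle⟩ := Ideal.exists_le_maximal _ hne
    obtain ⟨x, hx⟩ := isMaximal_iff_eq_vanishingIdeal_singleton.mp hm
    obtain ⟨g, hg, hgx⟩ := h x
    apply hgx
    have h1 := hle hg
    rw [hx, mem_vanishingIdeal_singleton_iff] at h1
    simpa [aeval_eq_eval] using h1
  subst h1
  have h2 : Subsingleton (MvPolynomial σ ℂ ⧸ (⊤ : Ideal (MvPolynomial σ ℂ))) :=
    Ideal.Quotient.subsingleton_iff.mpr rfl
  exact ⟨inferInstance, Module.finrank_zero_of_subsingleton⟩

theorem cnt_one (f : σ → MvPolynomial σ ℂ) (i0 : σ) :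
    Module.Finite ℂ (MvPolynomial σ ℂ ⧸ Ideal.span (Set.range (Function.update f i0 1))) ∧
    Module.finrank ℂ (MvPolynomial σ ℂ ⧸ Ideal.span (Set.range (Function.update f i0 1))) = 0 :=
  cnt_top _ fun p => ⟨1, Ideal.subset_span ⟨i0, Function.update_self ..⟩, by simp⟩

/-- (C1p) powers -/
theorem cnt_pow (f : σ → MvPolynomial σ ℂ) (i0 : σ) (a : MvPolynomial σ ℂ)
    (ha : Module.Finite ℂ (MvPolynomial σ ℂ ⧸ Ideal.span (Set.range (Function.update f i0 a)))) (k : ℕ) :
    Module.Finite ℂ (MvPolynomial σ ℂ ⧸ Ideal.span (Set.range (Function.update f i0 (a ^ k)))) ∧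
    Module.finrank ℂ (MvPolynomial σ ℂ ⧸ Ideal.span (Set.range (Function.update f i0 (a ^ k)))) =
      k * Module.finrank ℂ (MvPolynomial σ ℂ ⧸ Ideal.span (Set.range (Function.update f i0 a))) := by
  induction k with
  | zero =>
    rw [pow_zero, zero_mul]
    exact cnt_one f i0
  | succ k ih =>
    obtain ⟨h1, h2⟩ := cnt_mul f i0 (a ^ k) a ih.1 ha
    rw [pow_succ]
    refine ⟨h1, ?_⟩
    rw [h2, ih.2]
    ring

/-- products over a finite set -/
theorem cnt_prod {ι : Type*} (f : σ → MvPolynomial σ ℂ) (i0 : σ) (s : Finset ι) (a : ι → MvPolynomial σ ℂ)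
    (ha : ∀ i ∈ s, Module.Finite ℂ (MvPolynomial σ ℂ ⧸ Ideal.span (Set.range (Function.update f i0 (a i))))) :
    Module.Finite ℂ (MvPolynomial σ ℂ ⧸ Ideal.span (Set.range (Function.update f i0 (∏ i ∈ s, a i)))) ∧
    Module.finrank ℂ (MvPolynomial σ ℂ ⧸ Ideal.span (Set.range (Function.update f i0 (∏ i ∈ s, a i)))) =
      ∑ i ∈ s, Module.finrank ℂ (MvPolynomial σ ℂ ⧸ Ideal.span (Set.range (Function.update f i0 (a i)))) := by
  classical
  induction s using Finset.induction_on with
  | empty => rw [Finset.prod_empty, Finset.sum_empty]; exact cnt_one f i0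
  | insert j s hj ih =>
    rw [Finset.prod_insert hj, Finset.sum_insert hj]
    obtain ⟨h1, h2⟩ := ih fun i hi => ha i (Finset.mem_insert_of_mem hi)
    obtain ⟨h3, h4⟩ := cnt_mul f i0 (a j) (∏ i ∈ s, a i) (ha j (Finset.mem_insert_self _ _)) h1
    exact ⟨h3, by rw [h4, h2]⟩

/-- (C3) a factor which is a nonzero constant modulo the other equations may be dropped -/
theorem cnt_unit (f : σ → MvPolynomial σ ℂ) (i0 : σ) (g a : MvPolynomial σ ℂ) (r : ℂ) (hr : r ≠ 0)
    (h : g - C r ∈ Ideal.span (f '' {i0}ᶜ)) :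
    Ideal.span (Set.range (Function.update f i0 (g * a))) = Ideal.span (Set.range (Function.update f i0 a)) := by
  have h1 : ∀ c : MvPolynomial σ ℂ, Ideal.span (f '' {i0}ᶜ) ≤ Ideal.span (Set.range (Function.update f i0 c)) := by
    intro c
    rw [Ideal.span_le]
    rintro _ ⟨j, hj, rfl⟩
    exact Ideal.subset_span ⟨j, Function.update_of_ne hj ..⟩
  have h2 : ∀ c : MvPolynomial σ ℂ, c ∈ Ideal.span (Set.range (Function.update f i0 c)) := fun c =>
    Ideal.subset_span ⟨i0, Function.update_self ..⟩
  have h3 : ∀ c (I : Ideal (MvPolynomial σ ℂ)), Ideal.span (f '' {i0}ᶜ) ≤ I → c ∈ I →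
      Ideal.span (Set.range (Function.update f i0 c)) ≤ I := by
    intro c I hI hc
    rw [Ideal.span_le]
    rintro _ ⟨j, rfl⟩
    by_cases hj : j = i0
    · subst hj; rw [Function.update_self]; exact hc
    · rw [Function.update_of_ne hj]
      exact hI (Ideal.subset_span ⟨j, hj, rfl⟩)
  apply le_antisymm
  · exact h3 _ _ (h1 a) (Ideal.mul_mem_left _ _ (h2 a))
  · apply h3 _ _ (h1 _)
    have h4 : a = C r⁻¹ * (g * a) - (C r⁻¹ * a) * (g - C r) := by
      have h5 : C r⁻¹ * C r = (1 : MvPolynomial σ ℂ) := by rw [← C_mul, inv_mul_cancel₀ hr, C_1]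
      linear_combination (-a) * h5
    have h6 : C r⁻¹ * (g * a) - (C r⁻¹ * a) * (g - C r) ∈
        Ideal.span (Set.range (Function.update f i0 (g * a))) :=
      Ideal.sub_mem _ (Ideal.mul_mem_left _ _ (h2 _)) (Ideal.mul_mem_left _ _ (h1 _ h))
    rwa [← h4] at h6

end C1

/-! ### automorphisms and elimination -/

section C2

/-- (C2a) automorphisms -/
theorem cnt_equiv {σ ι : Type*} (e : MvPolynomial σ ℂ ≃ₐ[ℂ] MvPolynomial σ ℂ) (f : ι → MvPolynomial σ ℂ) :
    Nonempty ((MvPolynomial σ ℂ ⧸ Ideal.span (Set.range f)) ≃ₐ[ℂ]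
      (MvPolynomial σ ℂ ⧸ Ideal.span (Set.range fun i => e (f i)))) := by
  refine ⟨Ideal.quotientEquivAlg _ _ e ?_⟩
  rw [Ideal.map_span, ← Set.range_comp]
  rfl

/-- elimination of variables by a retraction `φ` with section `ι`: the ideal `I` contains `x - ι φ x` -/
theorem cnt_retract {σ τ : Type*} (φ : MvPolynomial σ ℂ →ₐ[ℂ] MvPolynomial τ ℂ)
    (ι : MvPolynomial τ ℂ →ₐ[ℂ] MvPolynomial σ ℂ) (h : ∀ j, φ (ι (X j)) = X j) (I : Ideal (MvPolynomial σ ℂ))
    (hI : ∀ i, X i - ι (φ (X i)) ∈ I) :
    Nonempty ((MvPolynomial σ ℂ ⧸ I) ≃ₐ[ℂ] (MvPolynomial τ ℂ ⧸ I.map φ)) := by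
  have h1 : φ.comp ι = AlgHom.id ℂ _ := MvPolynomial.algHom_ext (fun j => h j)
  have h2 : ∀ x, x - ι (φ x) ∈ I := by
    intro x
    induction x using MvPolynomial.induction_on with
    | C a =>
      have : ι (φ (C a)) = C a := by
        rw [← MvPolynomial.algebraMap_eq, AlgHom.commutes, AlgHom.commutes]
      rw [this, sub_self]; exact Ideal.zero_mem _
    | add p q hp hq =>
      have e : p + q - ι (φ (p + q)) = (p - ι (φ p)) + (q - ι (φ q)) := by
        rw [map_add, map_add]; ring
      rw [e]; exact Ideal.add_mem _ hp hq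
    | mul_X p i hp =>
      have e : p * X i - ι (φ (p * X i)) = X i * (p - ι (φ p)) + ι (φ p) * (X i - ι (φ (X i))) := by
        rw [map_mul, map_mul]; ring
      rw [e]
      exact Ideal.add_mem _ (Ideal.mul_mem_left _ _ hp) (Ideal.mul_mem_left _ _ (hI i))
  refine finrank_map_surj φ (fun f => ⟨ι f, AlgHom.congr_fun h1 f⟩) I fun x hx => ?_
  have h3 := h2 x
  rw [hx, map_zero, sub_zero] at h3
  exact h3

variable {ι : Type*}

/-- the elimination map `y ↦ c` -/
def elimY (c : MvPolynomial (Option ι) ℂ) : MvPolynomial (Option (Option ι)) ℂ →ₐ[ℂ] MvPolynomial (Option ι) ℂ :=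
  aeval fun o => o.elim (X none) fun o' => o'.elim c fun j => X (some j)

@[simp] theorem elimY_none (c : MvPolynomial (Option ι) ℂ) : elimY c (X none) = X none := by
  unfold elimY; rw [aeval_X]; rfl

@[simp] theorem elimY_y (c : MvPolynomial (Option ι) ℂ) : elimY c (X (some none)) = c := by
  unfold elimY; rw [aeval_X]; rfl

@[simp] theorem elimY_some (c : MvPolynomial (Option ι) ℂ) (j : ι) : elimY c (X (some (some j))) = X (some j) := by
  unfold elimY; rw [aeval_X]; rfl

theorem elimY_rename (c : MvPolynomial (Option ι) ℂ) (f : MvPolynomial (Option ι) ℂ) :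
    elimY c (rename (Option.map some) f) = f := by
  unfold elimY
  rw [aeval_rename]
  have : ((fun o : Option (Option ι) => o.elim (X none) fun o' => o'.elim c fun j => X (some j)) ∘
      Option.map some) = (X : Option ι → MvPolynomial (Option ι) ℂ) := by
    funext o
    rcases o with _ | o <;> rfl
  rw [this, aeval_X_left_apply]

/-- (C2) elimination of the variable `some none` given by `X (some none) = c` -/
theorem cnt_elim {J : Type*} (c : MvPolynomial (Option ι) ℂ) (g : J → MvPolynomial (Option (Option ι)) ℂ) :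
    Nonempty ((MvPolynomial (Option (Option ι)) ℂ ⧸
        Ideal.span ({X (some none) - rename (Option.map some) c} ∪ Set.range g)) ≃ₐ[ℂ]
      (MvPolynomial (Option ι) ℂ ⧸ Ideal.span (Set.range fun j => elimY c (g j)))) := by
  obtain ⟨e⟩ := cnt_retract (elimY c) (rename (Option.map some)) (fun j => elimY_rename c (X j))
    (Ideal.span ({X (some none) - rename (Option.map some) c} ∪ Set.range g)) (by
      intro i
      rcases i with _ | _ | i
      · rw [elimY_none, rename_X]
        simp
      · rw [elimY_y]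
        exact Ideal.subset_span (Or.inl rfl)
      · rw [elimY_some, rename_X]
        simp)
  have h1 : (Ideal.span ({X (some none) - rename (Option.map some) c} ∪ Set.range g)).map (elimY c) =
      Ideal.span (Set.range fun j => elimY c (g j)) := by
    rw [Ideal.map_span, Set.image_union, Set.image_singleton]
    have h2 : elimY c (X (some none) - rename (Option.map some) c) = 0 := by
      rw [map_sub, elimY_y, elimY_rename, sub_self]
    rw [h2, Ideal.span_union, Ideal.span_singleton_eq_bot.mpr rfl, bot_sup_eq, ← Set.range_comp]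
    rfl
  rw [h1] at e
  exact ⟨e⟩

theorem cnt_elim_finrank {J : Type*} (c : MvPolynomial (Option ι) ℂ) (g : J → MvPolynomial (Option (Option ι)) ℂ) :
    Module.finrank ℂ (MvPolynomial (Option (Option ι)) ℂ ⧸
        Ideal.span ({X (some none) - rename (Option.map some) c} ∪ Set.range g)) =
      Module.finrank ℂ (MvPolynomial (Option ι) ℂ ⧸ Ideal.span (Set.range fun j => elimY c (g j))) := by
  obtain ⟨e⟩ := cnt_elim c g
  exact e.toLinearEquiv.finrank_eq

theorem cnt_elim_finite {J : Type*} (c : MvPolynomial (Option ι) ℂ) (g : J → MvPolynomial (Option (Option ι)) ℂ) :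
    Module.Finite ℂ (MvPolynomial (Option (Option ι)) ℂ ⧸
        Ideal.span ({X (some none) - rename (Option.map some) c} ∪ Set.range g)) ↔
      Module.Finite ℂ (MvPolynomial (Option ι) ℂ ⧸ Ideal.span (Set.range fun j => elimY c (g j))) := by
  obtain ⟨e⟩ := cnt_elim c g
  constructor
  · intro h
    exact Module.Finite.equiv e.toLinearEquiv
  · intro h
    exact Module.Finite.equiv e.symm.toLinearEquiv

end C2

end

end EY
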