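import Pool.Agent.helper50.EY.ClassE

set_option autoImplicit false
set_option linter.unusedSectionVars false
set_option linter.unusedSimpArgs false

/-!
# EY-Scale: the rescaling `σ ↦ t σ` makes a state metric
-/

namespace EY

open MvPolynomial Filter Topology

noncomputable section

variable {τ : Type} [Fintype τ] [DecidableEq τ]

/-- `φ(t σ; w, x)` -/
def scT (t : ℂ) : MvPolynomial (Option (Option τ)) ℂ →ₐ[ℂ] MvPolynomial (Option (Option τ)) ℂ :=
  aeval fun o => o.elim (C t * X none) fun o' => X (some o')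

theorem scT_none (t : ℂ) : scT t (X none : MvPolynomial (Option (Option τ)) ℂ) = C t * X none := by
  unfold scT; rw [aeval_X]; rfl

theorem scT_some (t : ℂ) (o : Option τ) : scT t (X (some o) : MvPolynomial (Option (Option τ)) ℂ) = X (some o) := by
  unfold scT; rw [aeval_X]; rfl

theorem eval_scT (t : ℂ) (p : Option (Option τ) → ℂ) (ψ : MvPolynomial (Option (Option τ)) ℂ) :
    eval p (scT t ψ) = eval (fun o => o.elim (t * p none) fun o' => p (some o')) ψ := by
  have h : (eval p).comp (scT t : MvPolynomial (Option (Option τ)) ℂ →ₐ[ℂ] _).toRingHom =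
      eval (fun o => o.elim (t * p none) fun o' => p (some o')) := by
    apply MvPolynomial.ringHom_ext
    · intro c
      simp [scT]
    · intro o
      rcases o with _ | o <;> simp [scT]
  exact RingHom.congr_fun h ψ

theorem wh_scT {n : ℕ} (t : ℂ) {ψ : MvPolynomial (Option (Option τ)) ℂ} (h : wh (vw τ) n ψ) :
    wh (vw τ) n (scT t ψ) := by
  refine wh_aeval (v := vw τ) ?_ h
  intro o
  rcases o with _ | o
  · exact wh_C_mul t (wh_X (vw τ) none)
  · exact wh_X (vw τ) (some o)

theorem pderiv_scT_some (t : ℂ) (o : Option τ) (ψ : MvPolynomial (Option (Option τ)) ℂ) :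
    pderiv (some o) (scT t ψ) = scT t (pderiv (some o) ψ) := by
  induction ψ using MvPolynomial.induction_on with
  | C a =>
    have : scT t (C a : MvPolynomial (Option (Option τ)) ℂ) = C a := by unfold scT; rw [aeval_C]; rfl
    rw [this]; simp
  | add p q hp hq => rw [map_add, map_add, hp, hq, map_add, map_add]
  | mul_X p i hp =>
    rw [map_mul, Derivation.leibniz, Derivation.leibniz, hp]
    rcases i with _ | i
    · rw [scT_none]
      simp [pderiv_X, Pi.single_apply, Derivation.leibniz, scT_none]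
    · rw [scT_some]
      by_cases h : i = o
      · subst h; simp [pderiv_X, scT_some, scT_none]
      · have h' : (some i : Option (Option τ)) ≠ some o := fun h2 => h (Option.some_injective _ h2)
        simp [pderiv_X, Pi.single_apply, h, scT_some]

theorem pderiv_scT_none (t : ℂ) (ψ : MvPolynomial (Option (Option τ)) ℂ) :
    pderiv none (scT t ψ) = C t * scT t (pderiv none ψ) := by
  induction ψ using MvPolynomial.induction_on with
  | C a =>
    have : scT t (C a : MvPolynomial (Option (Option τ)) ℂ) = C a := by unfold scT; rw [aeval_C]; rfl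
    rw [this]; simp
  | add p q hp hq => rw [map_add, map_add, hp, hq, map_add, map_add]; ring
  | mul_X p i hp =>
    rw [map_mul, Derivation.leibniz, Derivation.leibniz, hp]
    rcases i with _ | i
    · rw [scT_none]
      simp [pderiv_X, Derivation.leibniz, scT_none]
      ring
    · rw [scT_some]
      simp [pderiv_X, scT_some]
      ring

/-- the automorphism `σ ↦ t σ` of the chart ring `ℂ[σ, x]` -/
def scR (t : ℂ) : MvPolynomial (Option τ) ℂ →ₐ[ℂ] MvPolynomial (Option τ) ℂ :=
  aeval fun o => o.elim (C t * X none) fun i => X (some i)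

theorem ev1_scT (t : ℂ) (ψ : MvPolynomial (Option (Option τ)) ℂ) : ev1 (scT t ψ) = scR t (ev1 ψ) := by
  have h : (ev1 (τ := τ)).comp (scT t) = (scR t).comp ev1 := by
    apply MvPolynomial.algHom_ext
    intro o
    rcases o with _ | _ | o
    · simp [ev1, scT, scR]
    · simp [ev1, scT, scR]
    · simp [ev1, scT, scR]
  exact AlgHom.congr_fun h ψ

theorem scR_scR (t s : ℂ) (h : t * s = 1) : (scR t).comp (scR s) = AlgHom.id ℂ (MvPolynomial (Option τ) ℂ) := by
  apply MvPolynomial.algHom_ext
  intro o
  rcases o with _ | o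
  · simp only [AlgHom.comp_apply, AlgHom.id_apply, scR, aeval_X, Option.elim, map_mul, algHom_C,
      MvPolynomial.algebraMap_eq]
    rw [← mul_assoc, ← C_mul, mul_comm s t, h, C_1, one_mul]
  · simp [scR]

/-- `σ ↦ t σ` as an equivalence -/
def scE (t : ℂ) (ht : t ≠ 0) : MvPolynomial (Option τ) ℂ ≃ₐ[ℂ] MvPolynomial (Option τ) ℂ :=
  AlgEquiv.ofAlgHom (scR t) (scR t⁻¹) (scR_scR t t⁻¹ (mul_inv_cancel₀ ht)) (scR_scR t⁻¹ t (inv_mul_cancel₀ ht))

theorem critOne_scT (t : ℂ) (φ : MvPolynomial (Option (Option τ)) ℂ) (o : Option τ) :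
    critOne (scT t φ) o = scR t (critOne φ o) := by
  unfold critOne
  rw [pderiv_scT_some, ev1_scT]

theorem critOne_equiv (t : ℂ) (ht : t ≠ 0) (φ : MvPolynomial (Option (Option τ)) ℂ) :
    Nonempty ((MvPolynomial (Option τ) ℂ ⧸ Ideal.span (Set.range (critOne φ))) ≃ₐ[ℂ]
      (MvPolynomial (Option τ) ℂ ⧸ Ideal.span (Set.range (critOne (scT t φ))))) := by
  refine ⟨Ideal.quotientEquivAlg _ _ (scE t ht) ?_⟩
  rw [Ideal.map_span, ← Set.range_comp]
  congr 1
  apply congrArg
  funext o
  exact critOne_scT t φ o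

theorem st_scT {q E : ℕ} {φ : MvPolynomial (Option (Option τ)) ℂ} (h : St τ q E φ) (t : ℂ) (ht : t ≠ 0) :
    St τ q E (scT t φ) := by
  have hp0 : ∀ p : Option (Option τ) → ℂ, p none = 0 →
      (fun o : Option (Option τ) => o.elim (t * p none) fun o' => p (some o')) = p := by
    intro p hp
    funext o
    rcases o with _ | o
    · change t * p none = p none
      rw [hp, mul_zero]
    · rfl
  obtain ⟨e⟩ := critOne_equiv t ht φ
  refine ⟨wh_scT t h.wh, ?_, ?_, ?_, ?_⟩
  · intro p hp hpw hx
    apply h.ndx p hp hpw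
    intro i
    have h1 := hx i
    rw [pderiv_scT_some, eval_scT, hp0 p hp] at h1
    exact h1
  · intro p hp hx
    apply h.nd p hp
    intro v
    have h1 := hx v
    rw [pderiv_scT_some, eval_scT, hp0 p hp] at h1
    exact h1
  · have := h.fin
    exact Module.Finite.equiv e.toLinearEquiv
  · rw [← h.len]
    exact e.toLinearEquiv.finrank_eq.symm

theorem crit_scT {φ : MvPolynomial (Option (Option τ)) ℂ} (h : Crit φ) (t : ℂ) (ht : t ≠ 0) : Crit (scT t φ) := by
  intro p hp v
  have h1 := h (fun o : Option (Option τ) => o.elim (t * p none) fun o' => p (some o')) (by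
    intro o
    have h2 := hp o
    rcases o with _ | o
    · rw [pderiv_scT_none, map_mul, eval_C, eval_scT] at h2
      exact (mul_eq_zero.mp h2).resolve_left ht
    · rw [pderiv_scT_some, eval_scT] at h2
      exact h2) v
  exact h1

theorem cont_pv {α : Type*} [TopologicalSpace α] {a b : α → ℂ} {c : α → τ → ℂ} (ha : Continuous a)
    (hb : Continuous b) (hc : Continuous c) (ψ : MvPolynomial (Option (Option τ)) ℂ) :
    Continuous fun z => eval (pv (a z) (b z) (c z)) ψ := by
  apply (MvPolynomial.continuous_eval ψ).comp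
  apply continuous_pi
  intro i
  rcases i with _ | _ | i
  · exact ha
  · exact hb
  · exact (continuous_apply i).comp hc

theorem cont_hq {α : Type*} [TopologicalSpace α] {c : α → τ → ℂ} (hc : Continuous c) :
    Continuous fun z => hq (c z) := by
  unfold hq
  have : ∀ i, Continuous fun z => c z i := fun i => (continuous_apply i).comp hc
  fun_prop

/-- for all small `t ≠ 0` the state `φ(t σ; w, x)` is metric -/
theorem mst_scT {q E : ℕ} {φ : MvPolynomial (Option (Option τ)) ℂ} (h : St τ q E φ) :
    ∀ᶠ t in 𝓝[≠] (0 : ℂ), MSt τ q E (scT t φ) := by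
  have hφ : ∀ o : Option τ, wh (vw τ) q (pderiv (some o) φ) := fun o =>
    wh_pderiv h.wh (some o) q (by rcases o with _ | o <;> rfl)
  have hhom : ∀ (o : Option τ) (t c w : ℂ) (x : τ → ℂ), eval (pv (t * hq (c • x)) (c * w) (c • x)) (pderiv (some o) φ) =
      c ^ q * eval (pv (t * hq x) w x) (pderiv (some o) φ) := by
    intro o t c w x
    have h1 := aeval_wh (hφ o) c (pv (t * hq x) w x)
    simp only [aeval_eq_eval] at h1
    refine Eq.trans ?_ h1
    congr 2
    funext i
    rcases i with _ | _ | i
    · simp only [pv, vw, Option.elim, hq, Pi.smul_apply, smul_eq_mul, mul_pow, ← Finset.mul_sum]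
      ring
    · simp [pv, vw]
    · simp [pv, vw]
  have hcont : ∀ o : Option τ, Continuous fun z : ℂ × (Option τ → ℂ) =>
      eval (pv (z.1 * hq fun i => z.2 (some i)) (z.2 none) fun i => z.2 (some i)) (pderiv (some o) φ) := by
    intro o
    have h3 : Continuous fun z : ℂ × (Option τ → ℂ) => (fun i => z.2 (some i) : τ → ℂ) := by fun_prop
    exact cont_pv (continuous_fst.mul (cont_hq h3)) (by fun_prop) h3 _
  -- (m)
  have h1 : ∀ᶠ t in 𝓝 (0 : ℂ), ∀ y : Option τ → ℂ,
      (∀ o : Option τ, eval (pv (t * hq fun i => y (some i)) (y none) fun i => y (some i)) (pderiv (some o) φ) = 0) →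
      y = 0 := by
    refine open_zero (fun (o : Option τ) (t : ℂ) (y : Option τ → ℂ) =>
      eval (pv (t * hq fun i => y (some i)) (y none) fun i => y (some i)) (pderiv (some o) φ)) (fun _ => q)
      hcont ?_ 0 ?_
    · intro o t c y
      exact hhom o t c (y none) fun i => y (some i)
    · intro y hy
      have h2 := h.nd (pv (0 * hq fun i => y (some i)) (y none) fun i => y (some i)) (by simp [pv]) hy
      funext o
      rcases o with _ | i
      · exact congrFun h2 (some none)
      · exact congrFun h2 (some (some i))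
  -- (mx)
  have h2 : ∀ᶠ t in 𝓝 (0 : ℂ), ∀ x : τ → ℂ,
      (∀ i : τ, eval (pv (t * hq x) 0 x) (pderiv (some (some i)) φ) = 0) → x = 0 := by
    refine open_zero (fun (i : τ) (t : ℂ) (x : τ → ℂ) =>
      eval (pv (t * hq x) 0 x) (pderiv (some (some i)) φ)) (fun _ => q) ?_ ?_ 0 ?_
    · intro i
      exact cont_pv (continuous_fst.mul (cont_hq continuous_snd)) continuous_const continuous_snd _
    · intro i t c x
      have h3 := hhom (some i) t c 0 x
      rw [mul_zero] at h3
      exact h3
    · intro x hx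
      have h3 := h.ndx (pv (0 * hq x) 0 x) (by simp [pv]) rfl hx
      funext i
      exact congrFun h3 (some (some i))
  have h3 : ∀ᶠ t in 𝓝[≠] (0 : ℂ), t ≠ 0 := eventually_mem_nhdsWithin
  filter_upwards [h1.filter_mono nhdsWithin_le_nhds, h2.filter_mono nhdsWithin_le_nhds, h3] with t ht1 ht2 ht0
  refine { st_scT h t ht0 with mx := ?_, m := ?_ }
  · intro p hp hpw hx
    have h4 : (fun i => p (some (some i))) = (0 : τ → ℂ) := by
      apply ht2
      intro i
      have h5 := hx i
      rw [pderiv_scT_some, eval_scT] at h5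
      refine Eq.trans ?_ h5
      congr 2
      funext o
      rcases o with _ | _ | o
      · simp only [pv, Option.elim, hq, hp]; ring
      · simp only [pv, Option.elim, hpw]
      · rfl
    funext o
    rcases o with _ | _ | o
    · rw [hp]
      have h5 : ∀ i, p (some (some i)) = 0 := fun i => congrFun h4 i
      simp [h5]
    · exact hpw
    · exact congrFun h4 o
  · intro p hp hx
    have h4 : (fun o => p (some o)) = (0 : Option τ → ℂ) := by
      apply ht1
      intro o
      have h5 := hx o
      rw [pderiv_scT_some, eval_scT] at h5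
      refine Eq.trans ?_ h5
      congr 2
      funext o
      rcases o with _ | _ | o
      · simp only [pv, Option.elim, hq, hp]; ring
      · rfl
      · rfl
    funext o
    rcases o with _ | o
    · rw [hp]
      have h5 : ∀ i, p (some (some i)) = 0 := fun i => congrFun h4 (some i)
      simp [h5]
    · exact congrFun h4 o

/-- a state can be made metric -/
theorem exists_mst {q E : ℕ} {φ : MvPolynomial (Option (Option τ)) ℂ} (h : St τ q E φ) :
    ∃ t : ℂ, t ≠ 0 ∧ MSt τ q E (scT t φ) := by
  have h3 : ∀ᶠ t in 𝓝[≠] (0 : ℂ), t ≠ 0 := eventually_mem_nhdsWithin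
  obtain ⟨t, ht, ht'⟩ := ((mst_scT h).and h3).exists
  exact ⟨t, ht', ht⟩

/-- (mg) for all small `t ≠ 0`: the form `φ(t|x|²/2; 0, x)` is nonsingular -/
theorem mg_scT {q E : ℕ} (hq1 : 1 ≤ q) {φ : MvPolynomial (Option (Option τ)) ℂ} (h : St τ q E φ) :
    ∀ᶠ t in 𝓝[≠] (0 : ℂ), ∀ x : τ → ℂ,
      (∀ i, eval (pv (hq x) 0 x) (pderiv (some (some i)) (scT t φ)) +
        x i * eval (pv (hq x) 0 x) (pderiv none (scT t φ)) = 0) → x = 0 := by
  have hφ : ∀ o : Option τ, wh (vw τ) q (pderiv (some o) φ) := fun o =>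
    wh_pderiv h.wh (some o) q (by rcases o with _ | o <;> rfl)
  have hφn : wh (vw τ) (q - 1) (pderiv none φ) :=
    wh_pderiv h.wh none (q - 1) (by change q - 1 + 2 = q + 1; omega)
  have hhom : ∀ (n : ℕ) (ψ : MvPolynomial (Option (Option τ)) ℂ), wh (vw τ) n ψ → ∀ (t c : ℂ) (x : τ → ℂ),
      eval (pv (t * hq (c • x)) 0 (c • x)) ψ = c ^ n * eval (pv (t * hq x) 0 x) ψ := by
    intro n ψ hψ t c x
    have h1 := aeval_wh hψ c (pv (t * hq x) 0 x)
    simp only [aeval_eq_eval] at h1
    refine Eq.trans ?_ h1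
    congr 2
    funext i
    rcases i with _ | _ | i
    · simp only [pv, vw, Option.elim, hq, Pi.smul_apply, smul_eq_mul, mul_pow, ← Finset.mul_sum]
      ring
    · simp [pv, vw]
    · simp [pv, vw]
  have h2 : ∀ᶠ t in 𝓝 (0 : ℂ), ∀ x : τ → ℂ,
      (∀ i : τ, eval (pv (t * hq x) 0 x) (pderiv (some (some i)) φ) +
        x i * (t * eval (pv (t * hq x) 0 x) (pderiv none φ)) = 0) → x = 0 := by
    refine open_zero (fun (i : τ) (t : ℂ) (x : τ → ℂ) =>
      eval (pv (t * hq x) 0 x) (pderiv (some (some i)) φ) +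
        x i * (t * eval (pv (t * hq x) 0 x) (pderiv none φ))) (fun _ => q) ?_ ?_ 0 ?_
    · intro i
      have h3 : Continuous fun z : ℂ × (τ → ℂ) => z.2 i := by fun_prop
      refine (cont_pv (continuous_fst.mul (cont_hq continuous_snd)) continuous_const continuous_snd _).add
        (h3.mul (continuous_fst.mul
          (cont_pv (continuous_fst.mul (cont_hq continuous_snd)) continuous_const continuous_snd _)))
    · intro i t c x
      rw [hhom q _ (hφ (some i)) t c x, hhom (q - 1) _ hφn t c x]
      have h3 : c ^ q = c * c ^ (q - 1) := by rw [← pow_succ', Nat.sub_add_cancel hq1]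
      rw [Pi.smul_apply, smul_eq_mul, h3]
      ring
    · intro x hx
      have h3 := h.ndx (pv (0 * hq x) 0 x) (by simp [pv]) rfl (by
        intro i
        have h4 := hx i
        rw [zero_mul, zero_mul, mul_zero, add_zero] at h4
        rw [zero_mul]
        exact h4)
      funext i
      exact congrFun h3 (some (some i))
  filter_upwards [h2.filter_mono nhdsWithin_le_nhds] with t ht x hx
  apply ht
  intro i
  have h5 := hx i
  have hpv : (fun o : Option (Option τ) => o.elim (t * pv (hq x) 0 x none) fun o' => pv (hq x) 0 x (some o')) =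
      pv (t * hq x) 0 x := by
    funext o
    rcases o with _ | _ | o <;> rfl
  rw [pderiv_scT_some, pderiv_scT_none, map_mul, eval_C, eval_scT, eval_scT, hpv] at h5
  exact h5

/-- a state can be made metric, with (mg) -/
theorem exists_mst_mg {q E : ℕ} (hq1 : 1 ≤ q) {φ : MvPolynomial (Option (Option τ)) ℂ} (h : St τ q E φ) :
    ∃ t : ℂ, t ≠ 0 ∧ MSt τ q E (scT t φ) ∧ ∀ x : τ → ℂ,
      (∀ i, eval (pv (hq x) 0 x) (pderiv (some (some i)) (scT t φ)) +
        x i * eval (pv (hq x) 0 x) (pderiv none (scT t φ)) = 0) → x = 0 := by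
  have h3 : ∀ᶠ t in 𝓝[≠] (0 : ℂ), t ≠ 0 := eventually_mem_nhdsWithin
  obtain ⟨t, ⟨ht, ht'⟩, ht''⟩ := (((mst_scT h).and h3).and (mg_scT hq1 h)).exists
  exact ⟨t, ht', ht, ht''⟩

end

end EY
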