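import Pool.Agent.helper5.EY.Tr2
import Pool.Agent.helper40.EY.WBez

set_option autoImplicit false
set_option linter.unusedSectionVars false
set_option linter.unusedSimpArgs false

/-!
# EY-Aff: the eigenscheme of `f = F(Q; u, w, x)`, `Q = u w + |x|²/2`, in the chart `u = 1`

Variables of `f`: `Option (Option τ)`: `none = u`, `some none = w`, `some (some i) = x_i`.
Variables of `F`: one more, `none = T` (to be replaced by `Q`).
Chart variables: `Option τ`: `none = w`, `some i = x_i`.
-/

namespace EY

open MvPolynomial

noncomputable section

variable {τ : Type} [Fintype τ] [DecidableEq τ]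

/-- the quadratic form `u w + |x|²/2` -/
def qf (τ : Type) [Fintype τ] : MvPolynomial (Option (Option τ)) ℂ :=
  X none * X (some none) + C (1 / 2) * ∑ i : τ, X (some (some i)) ^ 2

/-- its Gram matrix -/
def gram (τ : Type) [DecidableEq τ] : Matrix (Option (Option τ)) (Option (Option τ)) ℂ
  | none, some none => 1
  | some none, none => 1
  | some (some i), some (some j) => if i = j then 1 else 0
  | _, _ => 0

theorem gram_symm : (gram τ).IsSymm := by
  ext i j
  rcases i with _ | _ | i <;> rcases j with _ | _ | j <;> simp [gram, Matrix.transpose_apply, eq_comm]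

/-- `gram` is invertible: its square is 1 -/
theorem gram_sq : gram τ * gram τ = 1 := by
  ext i j
  rw [Matrix.mul_apply, Fintype.sum_option, Fintype.sum_option]
  rcases i with _ | _ | i <;> rcases j with _ | _ | j <;> simp [gram, Matrix.one_apply]

theorem gram_det : (gram τ).det ≠ 0 := by
  intro h
  have h1 := congrArg Matrix.det (gram_sq (τ := τ))
  rw [Matrix.det_mul, h, mul_zero, Matrix.det_one] at h1
  exact zero_ne_one h1

theorem gram_w (j : Option (Option τ)) : gram τ (some none) j = if j = none then 1 else 0 := by
  rcases j with _ | _ | j <;> simp [gram]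

/-- the linear form `(S x)_j` -/
def slq (j : Option (Option τ)) : MvPolynomial (Option (Option τ)) ℂ :=
  match j with
  | none => X (some none)
  | some none => X none
  | some (some i) => X (some (some i))

theorem sl_gram (j : Option (Option τ)) : sl (gram τ) j = slq j := by
  unfold sl
  rw [Fintype.sum_option, Fintype.sum_option]
  rcases j with _ | _ | j <;> simp [gram, slq]

theorem pderiv_qf (j : Option (Option τ)) : pderiv j (qf τ) = slq j := by
  unfold qf
  rw [map_add, Derivation.leibniz, Derivation.leibniz, map_sum]
  simp only [Derivation.leibniz_pow, pderiv_X, pderiv_C]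
  rcases j with _ | _ | j
  · simp [slq]
  · simp [slq]
  · simp only [slq, smul_eq_mul, nsmul_eq_mul]
    rw [Finset.sum_eq_single j]
    · simp only [Pi.single_eq_same, mul_one, ne_eq, reduceCtorEq, not_false_eq_true, Pi.single_eq_of_ne', mul_zero,
        Option.some.injEq, Nat.cast_ofNat]
      have h : (C (1 / 2) * (2 * X (some (some j)) ^ (2 - 1)) : MvPolynomial (Option (Option τ)) ℂ) =
          (C (1 / 2) * C 2) * X (some (some j)) := by
        rw [show (C (2 : ℂ) : MvPolynomial (Option (Option τ)) ℂ) = 2 from map_ofNat C 2]
        ring
      simp only [add_zero, zero_add]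
      rw [h, ← C_mul]
      norm_num
    · intro i _ hi
      simp [hi]
    · intro h
      exact absurd (Finset.mem_univ j) h

omit [Fintype τ] [DecidableEq τ] in
/-- the chain rule -/
theorem pderiv_subN {τ : Type} (c : MvPolynomial τ ℂ) (F : MvPolynomial (Option τ) ℂ) (j : τ) :
    pderiv j (subN c F) = subN c (pderiv (some j) F) + pderiv j c * subN c (pderiv none F) := by
  classical
  induction F using MvPolynomial.induction_on with
  | C a =>
    have : subN c (C a) = C a := by
      unfold subN; rw [aeval_C]; rfl
    rw [this]; simp
  | add p q hp hq => rw [map_add, map_add, hp, hq, map_add, map_add, map_add, map_add]; ring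
  | mul_X p i hp =>
    rw [map_mul, Derivation.leibniz, Derivation.leibniz, Derivation.leibniz, hp]
    rcases i with _ | i
    · simp only [subN_none, smul_eq_mul, map_add, map_mul, pderiv_X, Pi.single_apply]
      simp
      ring
    · simp only [subN_some, smul_eq_mul, map_add, map_mul, pderiv_X, Pi.single_apply]
      by_cases h : i = j
      · subst h; simp; ring
      · simp [h]; ring

/-- the quadratic form in the chart -/
def qc (τ : Type) [Fintype τ] : MvPolynomial (Option τ) ℂ := X none + C (1 / 2) * ∑ i : τ, X (some i) ^ 2

/-- the chart map: `T ↦ w + |x|²/2`, `u ↦ 1`, `w ↦ w`, `x ↦ x` -/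
def ch : MvPolynomial (Option (Option (Option τ))) ℂ →ₐ[ℂ] MvPolynomial (Option τ) ℂ :=
  aeval fun o => o.elim (qc τ) fun o' => o'.elim 1 X

theorem dehom_subN (F : MvPolynomial (Option (Option (Option τ))) ℂ) : dehom (subN (qf τ) F) = ch F := by
  have h : dehom.comp (subN (qf τ)) = ch (τ := τ) := by
    apply MvPolynomial.algHom_ext
    intro o
    rcases o with _ | _ | o
    · simp only [AlgHom.comp_apply, subN_none, ch, aeval_X, Option.elim, qf, qc, map_add, map_mul, dehom_X_none,
        dehom_X_some, one_mul, map_sum, map_pow]
      congr 2
      exact dehom.commutes _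
    · simp [AlgHom.comp_apply, ch, dehom_X_none]
    · simp [AlgHom.comp_apply, ch, dehom_X_some]
  exact AlgHom.congr_fun h F

/-- the equations in the chart: `F_u - w F_w` and `F_{x_i} - x_i F_w` -/
def chSys (F : MvPolynomial (Option (Option (Option τ))) ℂ) : Option τ → MvPolynomial (Option τ) ℂ
  | none => ch (pderiv (some none) F) - X none * ch (pderiv (some (some none)) F)
  | some i => ch (pderiv (some (some (some i))) F) - X (some i) * ch (pderiv (some (some none)) F)

theorem dehom_slq_none : dehom (slq (none : Option (Option τ))) = X none := by
  unfold slq; rw [dehom_X_some]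

theorem affIdeal_subN (F : MvPolynomial (Option (Option (Option τ))) ℂ) :
    affIdeal (subN (qf τ) F) (gram τ) (some none) = Ideal.span (Set.range (chSys F)) := by
  have key : ∀ j : Option (Option τ), dehom (pderiv j (subN (qf τ) F) -
      sl (gram τ) j * pderiv (some none) (subN (qf τ) F)) =
      ch (pderiv (some j) F) - dehom (slq j) * ch (pderiv (some (some none)) F) := by
    intro j
    rw [sl_gram, pderiv_subN, pderiv_subN, pderiv_qf, pderiv_qf]
    simp only [map_sub, map_add, map_mul, dehom_subN]
    have h1 : dehom (slq (some none : Option (Option τ))) = 1 := by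
      unfold slq; rw [dehom_X_none]
    rw [h1]
    ring
  unfold affIdeal
  apply le_antisymm
  · rw [Ideal.span_le]
    rintro _ ⟨j, rfl⟩
    simp only []
    rw [key]
    rcases j with _ | _ | j
    · have h2 : chSys F none = ch (pderiv (some none) F) -
          dehom (slq none) * ch (pderiv (some (some none)) F) := by
        rw [dehom_slq_none]; rfl
      rw [← h2]
      exact Ideal.subset_span ⟨none, rfl⟩
    · have h1 : dehom (slq (some none : Option (Option τ))) = 1 := by
        unfold slq; rw [dehom_X_none]
      rw [h1, one_mul, sub_self]
      exact Ideal.zero_mem _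
    · have h2 : chSys F (some j) = ch (pderiv (some (some (some j))) F) -
          dehom (slq (some (some j))) * ch (pderiv (some (some none)) F) := by
        unfold slq; rw [dehom_X_some]; rfl
      rw [← h2]
      exact Ideal.subset_span ⟨some j, rfl⟩
  · rw [Ideal.span_le]
    rintro _ ⟨j, rfl⟩
    rcases j with _ | j
    · have h2 : chSys F none = ch (pderiv (some none) F) -
          dehom (slq none) * ch (pderiv (some (some none)) F) := by
        rw [dehom_slq_none]; rfl
      rw [h2, ← key]
      exact Ideal.subset_span ⟨none, rfl⟩
    · have h2 : chSys F (some j) = ch (pderiv (some (some (some j))) F) -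
          dehom (slq (some (some j))) * ch (pderiv (some (some none)) F) := by
        unfold slq; rw [dehom_X_some]; rfl
      rw [h2, ← key]
      exact Ideal.subset_span ⟨some (some j), rfl⟩

end

end EY
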