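import Pool.Agent.helper50.EY.Split
import Pool.Agent.helper50.EY.Aff

set_option autoImplicit false
set_option linter.unusedSectionVars false
set_option linter.unusedSimpArgs false

/-!
# EY-ClassC: the multiplicity at `e_u` of a class C form `f = φ(Q; w, x)`, `Q = u w + |x|²/2`

`φ` has variables `Option (Option τ)`: `none = σ` (weight 2), `some none = w`, `some (some i) = x_i` (weight 1), and is
weighted homogeneous of degree `q + 1`.  Under the conditions (i), (ii) the multiplicity is `q^K + q^(K+1) - E` with
`E = dim ℂ[σ,x]/(φ_w, φ_x)(σ; 1, x)`.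
-/

namespace EY

open MvPolynomial

noncomputable section

variable {τ : Type} [Fintype τ] [DecidableEq τ]

/-- the weights `2, 1, ..., 1` -/
def vw (τ : Type) : Option (Option τ) → ℕ := fun o => o.elim 2 fun _ => 1

/-- `σ ↦ X none`, `w ↦ 1`, `x ↦ x` -/
def ev1 : MvPolynomial (Option (Option τ)) ℂ →ₐ[ℂ] MvPolynomial (Option τ) ℂ :=
  aeval fun o => o.elim (X none) fun o' => o'.elim 1 fun i => X (some i)

/-- no variable `u` -/
def embC (τ : Type) : Option (Option τ) → Option (Option (Option τ)) := fun o => o.elim none fun o' => some (some o')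

/-- the class C form of `φ` in the variables `u, w, x` -/
def formC (φ : MvPolynomial (Option (Option τ)) ℂ) : MvPolynomial (Option (Option τ)) ℂ :=
  subN (qf τ) (rename (embC τ) φ)

/-- the equations `φ_w, φ_x` in the chart -/
def critSys (φ : MvPolynomial (Option (Option τ)) ℂ) (o : Option τ) : MvPolynomial (Option τ) ℂ :=
  subN (qc τ) (pderiv (some o) φ)

/-- the equations `φ_w, φ_x` at `w = 1` -/
def critOne (φ : MvPolynomial (Option (Option τ)) ℂ) (o : Option τ) : MvPolynomial (Option τ) ℂ :=
  ev1 (pderiv (some o) φ)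

/-- the number `E(φ)` -/
def Enum (φ : MvPolynomial (Option (Option τ)) ℂ) : ℕ :=
  Module.finrank ℂ (MvPolynomial (Option τ) ℂ ⧸ Ideal.span (Set.range (critOne φ)))

/-- values of a weighted homogeneous polynomial at scaled elements -/
theorem aeval_wh {σ : Type*} [Fintype σ] {B : Type*} [CommRing B] [Algebra ℂ B] {v : σ → ℕ} {n : ℕ}
    {ψ : MvPolynomial σ ℂ} (h : wh v n ψ) (c : B) (y : σ → B) :
    aeval (fun i => c ^ v i * y i) ψ = c ^ n * aeval y ψ := by
  rw [aeval_def, aeval_def, eval₂_eq', eval₂_eq', Finset.mul_sum]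
  refine Finset.sum_congr rfl fun α hα => ?_
  have h1 : ∏ i, (c ^ v i * y i) ^ α i = c ^ n * ∏ i, y i ^ α i := by
    rw [← h α (mem_support_iff.mp hα), wd, ← Finset.prod_pow_eq_pow_sum, ← Finset.prod_mul_distrib]
    exact Finset.prod_congr rfl fun i _ => by rw [mul_pow, ← pow_mul]
  rw [h1]
  ring

theorem wh_pderiv {σ : Type*} [Fintype σ] [DecidableEq σ] {v : σ → ℕ} {n : ℕ} {ψ : MvPolynomial σ ℂ}
    (h : wh v n ψ) (i : σ) (m : ℕ) (hm : m + v i = n) : wh v m (pderiv i ψ) := by
  intro α hα
  rw [coeff_pderiv] at hα
  have h1 := h _ (left_ne_zero_of_mul hα)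
  rw [wd_add, wd_single, mul_one] at h1
  omega

theorem embC_inj : Function.Injective (embC τ) := by
  intro a b h
  rcases a with _ | a <;> rcases b with _ | b <;> simp [embC] at h ⊢
  exact h

theorem ch_embC (ψ : MvPolynomial (Option (Option τ)) ℂ) : ch (rename (embC τ) ψ) = subN (qc τ) ψ := by
  unfold ch subN
  rw [aeval_rename]
  congr 2
  funext o
  rcases o with _ | o <;> simp [embC]

theorem chSys_embC_none (φ : MvPolynomial (Option (Option τ)) ℂ) :
    chSys (rename (embC τ) φ) none = - (X none * critSys φ none) := by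
  have h1 : pderiv (some none) (rename (embC τ) φ) = 0 := by
    apply pderiv_eq_zero_of_notMem_vars
    intro hmem
    obtain ⟨o, _, ho⟩ := Finset.mem_image.mp (vars_rename (embC τ) φ hmem)
    rcases o with _ | o <;> simp [embC] at ho
  have h2 : pderiv (some (some none)) (rename (embC τ) φ) = rename (embC τ) (pderiv (some none) φ) := by
    have h3 : (some (some none) : Option (Option (Option τ))) = embC τ (some none) := rfl
    rw [h3, pderiv_rename (embC_inj)]
  change ch (pderiv (some none) _) - X none * ch (pderiv (some (some none)) _) = _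
  rw [h1, h2, map_zero, ch_embC, zero_sub]
  rfl

theorem chSys_embC_some (φ : MvPolynomial (Option (Option τ)) ℂ) (i : τ) :
    chSys (rename (embC τ) φ) (some i) = critSys φ (some i) - X (some i) * critSys φ none := by
  have h2 : ∀ o : Option τ, pderiv (some (some o)) (rename (embC τ) φ) =
      rename (embC τ) (pderiv (some o) φ) := by
    intro o
    have h3 : (some (some o) : Option (Option (Option τ))) = embC τ (some o) := rfl
    rw [h3, pderiv_rename (embC_inj)]
  change ch (pderiv (some (some (some i))) _) - X (some i) * ch (pderiv (some (some none)) _) = _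
  rw [h2, h2, ch_embC, ch_embC]
  rfl

end

end EY
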