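import Pool.Agent.helper5.EY.Tr2
import Pool.Agent.helper40.EY.Pow

set_option autoImplicit false

/-!
# EY-Fin: finiteness of eigenschemes

`ProjFin Z`: the cone `Z` consists of finitely many lines.
* `miss`: homogeneous equations without common zero on a hyperplane have finitely many zeros in projective space.
* `fin_of_isolated`: if all zeros on a hyperplane are isolated, there are finitely many zeros.
-/

namespace EY

open MvPolynomial

/-- the cone `Z` consists of finitely many lines -/
def ProjFin {κ : Type*} (Z : Set (κ → ℂ)) : Prop :=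
  ∃ T : Set (κ → ℂ), T.Finite ∧ ∀ x ∈ Z, ∃ t ∈ T, ∃ c : ℂ, x = c • t

theorem ProjFin.mono {κ : Type*} {Z Z' : Set (κ → ℂ)} (h : ProjFin Z) (hs : Z' ⊆ Z) : ProjFin Z' := by
  obtain ⟨T, hT, h1⟩ := h
  exact ⟨T, hT, fun x hx => h1 x (hs hx)⟩

theorem ProjFin.union {κ : Type*} {Z Z' : Set (κ → ℂ)} (h : ProjFin Z) (h' : ProjFin Z') :
    ProjFin (Z ∪ Z') := by
  obtain ⟨T, hT, h1⟩ := h
  obtain ⟨T', hT', h1'⟩ := h'
  refine ⟨T ∪ T', hT.union hT', ?_⟩
  rintro x (hx | hx)
  · obtain ⟨t, ht, c, hc⟩ := h1 x hx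
    exact ⟨t, Or.inl ht, c, hc⟩
  · obtain ⟨t, ht, c, hc⟩ := h1' x hx
    exact ⟨t, Or.inr ht, c, hc⟩

theorem ProjFin.biUnion {κ ι : Type*} {s : Set ι} (hs : s.Finite) {Z : ι → Set (κ → ℂ)}
    (h : ∀ i ∈ s, ProjFin (Z i)) : ProjFin (⋃ i ∈ s, Z i) := by
  choose! T hT h1 using h
  refine ⟨⋃ i ∈ s, T i, hs.biUnion hT, ?_⟩
  intro x hx
  simp only [Set.mem_iUnion] at hx
  obtain ⟨i, hi, hx⟩ := hx
  obtain ⟨t, ht, c, hc⟩ := h1 i hi x hx
  exact ⟨t, Set.mem_biUnion hi ht, c, hc⟩

section Miss

variable {κ : Type} [Fintype κ]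

/-- the common zeros of a set of polynomials -/
def zl (A : Set (MvPolynomial κ ℂ)) : Set (κ → ℂ) := {x | ∀ g ∈ A, eval x g = 0}

omit [Fintype κ] in
theorem eval_span_zero {A : Set (MvPolynomial κ ℂ)} {x : κ → ℂ} (hx : ∀ g ∈ A, eval x g = 0)
    {f : MvPolynomial κ ℂ} (hf : f ∈ Ideal.span A) : eval x f = 0 := by
  have h1 : Ideal.span A ≤ RingHom.ker (eval x) := Ideal.span_le.mpr fun g hg => RingHom.mem_ker.mpr (hx g hg)
  exact RingHom.mem_ker.mp (h1 hf)

omit [Fintype κ] in
theorem component_X_mul (l : κ) (h : MvPolynomial κ ℂ) (n : ℕ) :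
    homogeneousComponent (n + 1) (X l * h) = X l * homogeneousComponent n h := by
  classical
  ext m
  rw [coeff_homogeneousComponent, coeff_X_mul', coeff_X_mul', coeff_homogeneousComponent]
  by_cases hl : l ∈ m.support
  · rw [if_pos hl, if_pos hl]
    have h1 : m.degree = (m - Finsupp.single l 1).degree + 1 := by
      have h2 : m - Finsupp.single l 1 + Finsupp.single l 1 = m := by
        refine tsub_add_cancel_of_le ?_
        rw [Finsupp.single_le_iff]
        exact Nat.one_le_iff_ne_zero.mpr (Finsupp.mem_support_iff.mp hl)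
      conv_lhs => rw [← h2]
      rw [map_add]
      simp
    by_cases h2 : m.degree = n + 1
    · rw [if_pos h2, if_pos (by omega)]
    · rw [if_neg h2, if_neg (by omega)]
  · rw [if_neg hl, if_neg hl, ite_self]

omit [Fintype κ] in
theorem isHomogeneous_span (A : Set (MvPolynomial κ ℂ)) (hA : ∀ g ∈ A, ∃ e, g.IsHomogeneous e)
    {f : MvPolynomial κ ℂ} (hf : f ∈ Ideal.span A) (n : ℕ) :
    homogeneousComponent n f ∈ Ideal.span A := by
  let _ := MvPolynomial.gradedAlgebra (σ := κ) (R := ℂ)
  refine homogeneousComponent_mem_of_mem (Ideal.homogeneous_span _ _ ?_) hf n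
  intro g hg
  obtain ⟨e, he⟩ := hA g hg
  exact ⟨e, he⟩

/-- homogeneous equations without a nonzero common zero on a hyperplane have finitely many zeros -/
theorem miss (A : Set (MvPolynomial κ ℂ)) (hA : ∀ g ∈ A, ∃ e, g.IsHomogeneous e) (l : κ)
    (h : ∀ x ∈ zl A, x l = 0 → x = 0) : ProjFin (zl A) := by
  classical
  set J : Ideal (MvPolynomial κ ℂ) := Ideal.span A ⊔ Ideal.span {X l} with hJ
  have h1 : idealOfVars κ ℂ ≤ J.radical := by
    rw [← vanishingIdeal_zeroLocus_eq_radical (K := ℂ)]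
    rw [idealOfVars, Ideal.span_le]
    rintro _ ⟨i, rfl⟩
    intro x hx
    have hx' : ∀ f ∈ J, eval x f = 0 := by
      intro f hf
      have := hx f hf
      simpa [aeval_eq_eval] using this
    have hx0 : x = 0 := by
      apply h x
      · intro g hg
        exact hx' g (Ideal.mem_sup_left (Ideal.subset_span hg))
      · have := hx' (X l) (Ideal.mem_sup_right (Ideal.subset_span rfl))
        simpa using this
    simp [hx0]
  obtain ⟨M, hM⟩ := Ideal.exists_pow_le_of_le_radical_of_fg h1 (idealOfVars_fg κ ℂ)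
  set I1 : Ideal (MvPolynomial κ ℂ) := Ideal.span A ⊔ Ideal.span {X l - 1} with hI1
  -- the reduction step
  have hstep : ∀ n, M ≤ n + 1 → ∀ p : MvPolynomial κ ℂ, p.IsHomogeneous (n + 1) →
      ∃ r : MvPolynomial κ ℂ, r.IsHomogeneous n ∧ p - r ∈ I1 := by
    intro n hn p hp
    have hpJ : p ∈ J := by
      apply hM
      rw [mem_pow_idealOfVars_iff]
      intro x hx
      rw [hp.degree_eq_sum_deg_support hx] at hn
      simpa [Finsupp.degree] using hn
    obtain ⟨a, ha, t, ht, hat⟩ := Submodule.mem_sup.mp hpJ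
    obtain ⟨h0, rfl⟩ := Ideal.mem_span_singleton'.mp ht
    refine ⟨homogeneousComponent n h0, homogeneousComponent_isHomogeneous n h0, ?_⟩
    have h2 := isHomogeneous_span A hA ha (n + 1)
    have h3 : a = p - X l * h0 := by rw [← hat]; ring
    rw [h3, map_sub, component_X_mul, homogeneousComponent_eq_self hp] at h2
    have h4 : p - homogeneousComponent n h0 = (p - X l * homogeneousComponent n h0) +
        homogeneousComponent n h0 * (X l - 1) := by ring
    rw [h4]
    exact Ideal.add_mem _ (Ideal.mem_sup_left h2)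
      (Ideal.mem_sup_right (Ideal.mul_mem_left _ _ (Ideal.subset_span rfl)))
  have hfin : Module.Finite ℂ (MvPolynomial κ ℂ ⧸ I1) := by
    set W : Submodule ℂ (MvPolynomial κ ℂ ⧸ I1) :=
      (⨆ i : Fin (M + 1), homogeneousSubmodule κ ℂ (i : ℕ)).map (Ideal.Quotient.mkₐ ℂ I1).toLinearMap with hW
    have hhom : ∀ n, ∀ p : MvPolynomial κ ℂ, p.IsHomogeneous n → Ideal.Quotient.mk I1 p ∈ W := by
      intro n
      induction n with
      | zero =>
        intro p hp
        refine ⟨p, ?_, rfl⟩
        exact Submodule.mem_iSup_of_mem (⟨0, by omega⟩ : Fin (M + 1)) hp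
      | succ n ih =>
        intro p hp
        by_cases hn : M ≤ n + 1
        · obtain ⟨r, hr, hpr⟩ := hstep n hn p hp
          rw [(Ideal.Quotient.eq.mpr hpr : Ideal.Quotient.mk I1 p = Ideal.Quotient.mk I1 r)]
          exact ih r hr
        · refine ⟨p, ?_, rfl⟩
          exact Submodule.mem_iSup_of_mem (⟨n + 1, by omega⟩ : Fin (M + 1)) hp
    have hWtop : W = ⊤ := by
      rw [eq_top_iff]
      rintro x -
      obtain ⟨p, rfl⟩ := Ideal.Quotient.mk_surjective x
      rw [← sum_homogeneousComponent p, map_sum]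
      exact Submodule.sum_mem _ fun i _ => hhom i _ (homogeneousComponent_isHomogeneous i p)
    have hWfg : W.FG := by
      apply Submodule.FG.map
      exact Submodule.fg_iSup _ fun i => homogeneousSubmodule_fg κ ℂ (i : ℕ)
    exact ⟨hWtop ▸ hWfg⟩
  have hz := finite_zeros I1 hfin
  refine ⟨insert 0 {q : κ → ℂ | ∀ f ∈ I1, eval q f = 0}, hz.insert 0, ?_⟩
  intro x hx
  by_cases hx0 : x l = 0
  · exact ⟨0, Set.mem_insert _ _, 1, by rw [h x hx hx0, smul_zero]⟩
  · refine ⟨(x l)⁻¹ • x, Or.inr ?_, x l, by rw [smul_smul, mul_inv_cancel₀ hx0, one_smul]⟩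
    have h5 : ∀ g ∈ A ∪ {X l - 1}, eval ((x l)⁻¹ • x) g = 0 := by
      rintro g (hg | hg)
      · obtain ⟨e, he⟩ := hA g hg
        rw [eval_smul_hom he, hx g hg, mul_zero]
      · rw [Set.mem_singleton_iff] at hg
        rw [hg]
        simp [hx0]
    intro f hf
    rw [hI1, ← Ideal.span_union] at hf
    exact eval_span_zero h5 hf

/-- if all zeros on the hyperplane `x_l = 0` are isolated then there are finitely many zeros -/
theorem fin_of_isolated (A : Set (MvPolynomial κ ℂ)) (hA : ∀ g ∈ A, ∃ e, g.IsHomogeneous e) (l : κ)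
    (h : ∀ x ∈ zl A, x l = 0 → x ≠ 0 → ∃ g : MvPolynomial κ ℂ, eval x g ≠ 0 ∧
      ProjFin {x' | x' ∈ zl A ∧ eval x' g ≠ 0}) : ProjFin (zl A) := by
  classical
  have hcone : ∀ x ∈ zl A, ∀ c : ℂ, c • x ∈ zl A := by
    intro x hx c g hg
    obtain ⟨e, he⟩ := hA g hg
    rw [eval_smul_hom he, hx g hg, mul_zero]
  set B : Set (MvPolynomial κ ℂ) := {g | (∃ e, g.IsHomogeneous e) ∧
    ProjFin {x' | x' ∈ zl A ∧ eval x' g ≠ 0}} with hB
  have h1 : ∀ x ∈ zl (A ∪ B), x l = 0 → x = 0 := by
    intro x hx hxl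
    by_contra hx0
    obtain ⟨g, hg, hgf⟩ := h x (fun a ha => hx a (Or.inl ha)) hxl hx0
    -- a homogeneous component of g does not vanish at x
    have h2 : ∃ j, eval x (homogeneousComponent j g) ≠ 0 := by
      by_contra hcon
      push Not at hcon
      apply hg
      rw [← sum_homogeneousComponent g, map_sum]
      exact Finset.sum_eq_zero fun j _ => hcon j
    obtain ⟨j, hj⟩ := h2
    apply hj
    apply hx _ (Or.inr _)
    refine ⟨⟨j, homogeneousComponent_isHomogeneous j g⟩, ?_⟩
    obtain ⟨T, hT, hT'⟩ := hgf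
    refine ⟨T, hT, ?_⟩
    rintro x' ⟨hx'A, hx'j⟩
    -- some multiple of x' has g ≠ 0
    have h3 : ∃ t : ℂ, t ≠ 0 ∧ eval (t • x') g ≠ 0 := by
      set P : Polynomial ℂ := ∑ i ∈ Finset.range (g.totalDegree + 1),
        Polynomial.C (eval x' (homogeneousComponent i g)) * Polynomial.X ^ i with hP
      have hPe : ∀ t : ℂ, P.eval t = eval (t • x') g := by
        intro t
        rw [hP, Polynomial.eval_finsetSum]
        conv_rhs => rw [← sum_homogeneousComponent g, map_sum]
        refine Finset.sum_congr rfl fun i _ => ?_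
        rw [eval_smul_hom (homogeneousComponent_isHomogeneous i g)]
        rw [Polynomial.eval_mul, Polynomial.eval_C, Polynomial.eval_pow, Polynomial.eval_X, mul_comm]
      have hjdeg : j < g.totalDegree + 1 := by
        by_contra hcon
        apply hx'j
        rw [homogeneousComponent_eq_zero j g (by omega), map_zero]
      have hP0 : P ≠ 0 := by
        intro h0
        apply hx'j
        have h4 : P.coeff j = eval x' (homogeneousComponent j g) := by
          rw [hP, Polynomial.finsetSum_coeff]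
          simp only [Polynomial.coeff_C_mul, Polynomial.coeff_X_pow]
          rw [Finset.sum_eq_single j]
          · simp
          · intro i _ hij
            rw [if_neg (Ne.symm hij), mul_zero]
          · intro hj'
            exact absurd (Finset.mem_range.mpr hjdeg) hj'
        rw [← h4, h0, Polynomial.coeff_zero]
      have h5 : (P * Polynomial.X) ≠ 0 := mul_ne_zero hP0 Polynomial.X_ne_zero
      obtain ⟨t, ht⟩ : ∃ t, (P * Polynomial.X).eval t ≠ 0 := by
        by_contra hcon
        push Not at hcon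
        exact h5 (Polynomial.funext fun t => by rw [hcon t, Polynomial.eval_zero])
      rw [Polynomial.eval_mul, Polynomial.eval_X] at ht
      refine ⟨t, right_ne_zero_of_mul ht, ?_⟩
      rw [← hPe]
      exact left_ne_zero_of_mul ht
    obtain ⟨t, ht0, htg⟩ := h3
    obtain ⟨y, hy, c, hc⟩ := hT' (t • x') ⟨hcone x' hx'A t, htg⟩
    refine ⟨y, hy, t⁻¹ * c, ?_⟩
    rw [← smul_smul, ← hc, smul_smul, inv_mul_cancel₀ ht0, one_smul]
  have h2 := miss (A ∪ B) (by
    rintro g (hg | hg)
    · exact hA g hg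
    · exact hg.1) l h1
  have h3 : (Ideal.span B).FG := (isNoetherian_def.mp inferInstance) _
  obtain ⟨B', hB'B, hB'⟩ := Submodule.fg_span_iff_fg_span_finset_subset B |>.mp h3
  have h4 : zl A ⊆ zl (A ∪ B) ∪ ⋃ g ∈ (B' : Set (MvPolynomial κ ℂ)), {x' | x' ∈ zl A ∧ eval x' g ≠ 0} := by
    intro x hx
    by_cases hxB : ∀ g ∈ B', eval x g = 0
    · left
      rintro g (hg | hg)
      · exact hx g hg
      · have h5 : g ∈ Ideal.span (B' : Set (MvPolynomial κ ℂ)) := by
          have h6 : g ∈ Ideal.span B := Ideal.subset_span hg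
          unfold Ideal.span at h6 ⊢
          rw [← hB']
          exact h6
        exact eval_span_zero hxB h5
    · right
      push Not at hxB
      obtain ⟨g, hg, hgx⟩ := hxB
      exact Set.mem_biUnion (x := g) hg ⟨hx, hgx⟩
  refine ProjFin.mono (h2.union (ProjFin.biUnion B'.finite_toSet fun g hg => ?_)) h4
  exact (hB'B hg).2

end Miss

end EY
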