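import Mathlib

set_option autoImplicit false

/-!
# EY-Open: the property that the only common zero is 0 is an open condition (compactness of the unit sphere)
-/

namespace EY

open Filter Topology

/-- `G i t` homogeneous in `x` (of some degree `n i`), jointly continuous; if at `t = t₀` the only common zero is
`0`, then the same holds for all `t` near `t₀`. -/
theorem open_zero {ι κ τ : Type*} [Fintype κ] [TopologicalSpace τ] (G : ι → τ → (κ → ℂ) → ℂ) (n : ι → ℕ)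
    (hc : ∀ i, Continuous fun z : τ × (κ → ℂ) => G i z.1 z.2)
    (hh : ∀ i t (c : ℂ) x, G i t (c • x) = c ^ n i * G i t x) (t₀ : τ)
    (h0 : ∀ x, (∀ i, G i t₀ x = 0) → x = 0) :
    ∀ᶠ t in 𝓝 t₀, ∀ x, (∀ i, G i t x = 0) → x = 0 := by
  have hK : IsCompact (Metric.sphere (0 : κ → ℂ) 1) := isCompact_sphere _ _
  have h1 : ∀ᶠ t in 𝓝 t₀, ∀ x ∈ Metric.sphere (0 : κ → ℂ) 1, ∃ i, G i t x ≠ 0 := by
    refine hK.eventually_forall_of_forall_eventually ?_
    intro y hy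
    have hy0 : y ≠ 0 := by
      rintro rfl
      simp at hy
    obtain ⟨i, hi⟩ : ∃ i, G i t₀ y ≠ 0 := by
      by_contra hcon
      push Not at hcon
      exact hy0 (h0 y hcon)
    have h2 : ∀ᶠ z in 𝓝 ((t₀, y) : τ × (κ → ℂ)), G i z.1 z.2 ≠ 0 :=
      (hc i).continuousAt.eventually_ne hi
    exact h2.mono fun z hz => ⟨i, hz⟩
  refine h1.mono fun t ht x hx => ?_
  by_contra hx0
  have hn : ‖x‖ ≠ 0 := norm_ne_zero_iff.mpr hx0
  have hmem : ((‖x‖⁻¹ : ℝ) : ℂ) • x ∈ Metric.sphere (0 : κ → ℂ) 1 := by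
    rw [mem_sphere_zero_iff_norm, norm_smul]
    simp [hn]
  obtain ⟨i, hi⟩ := ht _ hmem
  exact hi (by rw [hh, hx i, mul_zero])

/-- the same with finitely many systems of conditions is obtained by `Filter.Eventually.and`; a nonzero parameter
exists: -/
theorem exists_ne_of_eventually {P : ℂ → Prop} (h : ∀ᶠ t in 𝓝 (0 : ℂ), P t) : ∃ t : ℂ, t ≠ 0 ∧ P t := by
  have h1 : ∀ᶠ t in 𝓝[≠] (0 : ℂ), P t := h.filter_mono nhdsWithin_le_nhds
  have h2 : ∀ᶠ t in 𝓝[≠] (0 : ℂ), t ≠ 0 := eventually_mem_nhdsWithin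
  obtain ⟨t, ht, ht'⟩ := (h1.and h2).exists
  exact ⟨t, ht', ht⟩

/-- a nonzero parameter that is also a square (or a square root) exists: `c ≠ 0` with `P (c⁻¹ ^ 2)` -/
theorem exists_sq_of_eventually {P : ℂ → Prop} (h : ∀ᶠ t in 𝓝 (0 : ℂ), P t) :
    ∃ c : ℂ, c ≠ 0 ∧ P ((c ^ 2)⁻¹) := by
  obtain ⟨t, ht, hP⟩ := exists_ne_of_eventually h
  obtain ⟨c, hc⟩ := IsAlgClosed.exists_pow_nat_eq t⁻¹ (n := 2) (by norm_num)
  refine ⟨c, ?_, ?_⟩
  · rintro rfl
    rw [zero_pow (by norm_num)] at hc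
    exact (inv_ne_zero ht) hc.symm
  · rw [hc, inv_inv]
    exact hP

end EY
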