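import Pool.Agent.helper50.EY.ClassD
import Pool.Agent.helper50.EY.Open
import Pool.Agent.helper5.EY.St

set_option autoImplicit false
set_option linter.unusedSectionVars false
set_option linter.unusedSimpArgs false

/-!
# EY-ClassE: `classC` (M3): the multiplicity at `e_u` of a class C form
-/

namespace EY

open MvPolynomial

noncomputable section

variable {τ : Type} [Fintype τ] [DecidableEq τ]

/-- a zero of a scheme with finite local ring has positive multiplicity -/
theorem mulAt_ne_zero {σ : Type*} {I : Ideal (MvPolynomial σ ℂ)} {p : σ → ℂ} (hI : ∀ f ∈ I, eval p f = 0)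
    (hf : Module.Finite ℂ (Localization.AtPrime (pt p) ⧸
      I.map (algebraMap (MvPolynomial σ ℂ) (Localization.AtPrime (pt p))))) : mulAt I p ≠ 0 := by
  have h1 : I ≤ pt p := fun f hf => mem_pt.mpr (hI f hf)
  have h2 : I.map (algebraMap (MvPolynomial σ ℂ) (Localization.AtPrime (pt p))) ≠ ⊤ := by
    intro h
    have h3 := Ideal.map_mono (f := algebraMap (MvPolynomial σ ℂ) (Localization.AtPrime (pt p))) h1
    rw [h, Localization.AtPrime.map_eq_maximalIdeal] at h3
    exact (IsLocalRing.maximalIdeal.isMaximal _).ne_top (top_le_iff.mp h3)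
  have h3 : Nontrivial (Localization.AtPrime (pt p) ⧸
      I.map (algebraMap (MvPolynomial σ ℂ) (Localization.AtPrime (pt p)))) := Ideal.Quotient.nontrivial_iff.mpr h2
  unfold mulAt
  exact Module.finrank_pos.ne'

theorem mulAt_ne_zero_of_finite {σ : Type*} [Finite σ] {I : Ideal (MvPolynomial σ ℂ)} {p : σ → ℂ}
    (hI : ∀ f ∈ I, eval p f = 0) (hf : Module.Finite ℂ (MvPolynomial σ ℂ ⧸ I)) : mulAt I p ≠ 0 := by
  have h1 := finite_zeros I hf
  refine mulAt_ne_zero hI ((finrank_eq_sum_mulAt I h1.toFinset fun q => ?_).1 p)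
  rw [Set.Finite.mem_toFinset]
  rfl

/-- the weights `w:2, x:1` in the chart -/
def w21 (τ : Type) : Option τ → ℕ := fun o => o.elim 2 fun _ => 1

theorem wh_qc21 : wh (w21 τ) 2 (qc τ) := by
  unfold qc
  apply wh_add
  · exact wh_X (w21 τ) none
  · apply wh_C_mul
    apply wh_sum
    intro i _
    exact wh_pow (wh_X (w21 τ) (some i)) 2

/-- `φ(|x|²/2 + w; 0, x)`: the initial substitution for the weights `2, 1` -/
def p21 (τ : Type) [Fintype τ] : Option (Option τ) → MvPolynomial (Option τ) ℂ :=
  fun o => o.elim (qc τ) fun o' => o'.elim 0 fun i => X (some i)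

theorem lead_critSys {q : ℕ} {ψ : MvPolynomial (Option (Option τ)) ℂ} (hψ : wh (vw τ) q ψ) :
    Lead (w21 τ) q (subN (qc τ) ψ) (aeval (p21 τ) ψ) := by
  unfold subN
  refine Lead.aeval (v := vw τ) ?_ (Lead.self hψ.wlo)
  intro o
  rcases o with _ | _ | i
  · exact Lead.self wh_qc21.wlo
  · exact Lead.of_lt (wh_X (w21 τ) none).wlo (by change 1 < 2; norm_num)
  · exact Lead.X (w21 τ) (some i)

theorem wh_p21 {q : ℕ} {ψ : MvPolynomial (Option (Option τ)) ℂ} (hψ : wh (vw τ) q ψ) :
    wh (w21 τ) q (aeval (p21 τ) ψ) := by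
  refine wh_aeval (v := vw τ) ?_ hψ
  intro o
  rcases o with _ | _ | i
  · exact wh_qc21
  · exact wh_zero _ _
  · exact wh_X (w21 τ) (some i)

theorem eval_p21 (p : Option τ → ℂ) (ψ : MvPolynomial (Option (Option τ)) ℂ) :
    eval p (aeval (p21 τ) ψ) = eval (pv (p none + hq fun i => p (some i)) 0 fun i => p (some i)) ψ := by
  have h : (eval p).comp (aeval (p21 τ) : MvPolynomial (Option (Option τ)) ℂ →ₐ[ℂ] _).toRingHom =
      eval (pv (p none + hq fun i => p (some i)) 0 fun i => p (some i)) := by
    apply MvPolynomial.ringHom_ext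
    · intro c
      simp
    · intro o
      rcases o with _ | _ | o
      · have := eval_qc p
        simp [p21, pv, this]
      · simp [p21, pv]
      · simp [p21, pv]
  exact RingHom.congr_fun h ψ

/-- `φ(|x|²/2; w, x)`: the top substitution for the weights `1` -/
def p11 (τ : Type) [Fintype τ] : Option (Option τ) → MvPolynomial (Option τ) ℂ :=
  fun o => o.elim (C (1 / 2) * ∑ i : τ, X (some i) ^ 2) X

theorem top_critSys {q : ℕ} {ψ : MvPolynomial (Option (Option τ)) ℂ} (hψ : wh (vw τ) q ψ) :
    Top (fun _ : Option τ => 1) q (subN (qc τ) ψ) (aeval (p11 τ) ψ) := by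
  have hx2 : wh (fun _ : Option τ => 1) 2 (C (1 / 2) * ∑ i : τ, X (some i) ^ 2) := by
    apply wh_C_mul
    apply wh_sum
    intro i _
    exact wh_pow (wh_X (fun _ : Option τ => 1) (some i)) 2
  unfold subN
  refine Top.aeval (v := vw τ) ?_ (Top.self hψ.wlt)
  intro o
  rcases o with _ | _ | i
  · change Top _ 2 (qc τ) (C (1 / 2) * ∑ i : τ, X (some i) ^ 2)
    unfold qc
    rw [add_comm]
    exact Top.add_lo (Top.self hx2.wlt) (wh_X (fun _ : Option τ => 1) none).wlt
  · exact Top.X (fun _ : Option τ => 1) none
  · exact Top.X (fun _ : Option τ => 1) (some i)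

theorem wh_p11 {q : ℕ} {ψ : MvPolynomial (Option (Option τ)) ℂ} (hψ : wh (vw τ) q ψ) :
    wh (fun _ : Option τ => 1) q (aeval (p11 τ) ψ) := by
  refine wh_aeval (v := vw τ) ?_ hψ
  intro o
  rcases o with _ | _ | i
  · apply wh_C_mul
    apply wh_sum
    intro i _
    exact wh_pow (wh_X (fun _ : Option τ => 1) (some i)) 2
  · exact wh_X (fun _ : Option τ => 1) none
  · exact wh_X (fun _ : Option τ => 1) (some i)

theorem eval_p11 (p : Option τ → ℂ) (ψ : MvPolynomial (Option (Option τ)) ℂ) :
    eval p (aeval (p11 τ) ψ) = eval (pv (hq fun i => p (some i)) (p none) fun i => p (some i)) ψ := by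
  have h : (eval p).comp (aeval (p11 τ) : MvPolynomial (Option (Option τ)) ℂ →ₐ[ℂ] _).toRingHom =
      eval (pv (hq fun i => p (some i)) (p none) fun i => p (some i)) := by
    apply MvPolynomial.ringHom_ext
    · intro c
      simp
    · intro o
      rcases o with _ | _ | o
      · simp [p11, pv, hq]
        ring
      · simp [p11, pv]
      · simp [p11, pv]
  exact RingHom.congr_fun h ψ

theorem mst_hi {q E : ℕ} {φ : MvPolynomial (Option (Option τ)) ℂ} (h : MSt τ q E φ) (x : τ → ℂ)
    (hx : ∀ i, eval (pv (hq x) 0 x) (pderiv (some (some i)) φ) = 0) : x = 0 := by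
  have h1 := h.mx (pv (hq x) 0 x) (by simp only [pv, Option.elim, hq]; ring) rfl hx
  funext i
  exact congrFun h1 (some (some i))

theorem mst_hii {q E : ℕ} {φ : MvPolynomial (Option (Option τ)) ℂ} (h : MSt τ q E φ) (w : ℂ) (x : τ → ℂ)
    (hx : ∀ o, eval (pv (hq x) w x) (pderiv (some o) φ) = 0) : w = 0 ∧ x = 0 := by
  have h1 := h.m (pv (hq x) w x) (by simp only [pv, Option.elim, hq]; ring) hx
  refine ⟨congrFun h1 (some none), ?_⟩
  funext i
  exact congrFun h1 (some (some i))

/-- the critical scheme in the chart has dimension `q^(K+1)` -/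
theorem crit_dim {q E : ℕ} (hq1 : 1 ≤ q) {φ : MvPolynomial (Option (Option τ)) ℂ} (h : MSt τ q E φ) :
    Module.Finite ℂ (MvPolynomial (Option τ) ℂ ⧸ Ideal.span (Set.range (critSys φ))) ∧
    Module.finrank ℂ (MvPolynomial (Option τ) ℂ ⧸ Ideal.span (Set.range (critSys φ))) =
      q ^ (Fintype.card τ + 1) := by
  have hφ : ∀ o : Option τ, wh (vw τ) q (pderiv (some o) φ) := fun o =>
    wh_pderiv h.wh (some o) q (by rcases o with _ | o <;> rfl)
  obtain ⟨h1, h2⟩ := wAff (w := fun _ : Option τ => 1) (fun _ => one_pos)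
    (f := critSys φ) (g := fun o => aeval (p11 τ) (pderiv (some o) φ)) (d := fun _ => q) (fun _ => hq1)
    (fun o => wh_p11 (hφ o)) (by
      intro x hx
      have h3 := mst_hii h (x none) (fun i => x (some i)) (fun o => by
        rw [← eval_p11]; exact hx o)
      funext o
      rcases o with _ | i
      · exact h3.1
      · exact congrFun h3.2 i) (fun o => top_critSys (hφ o))
  refine ⟨h1, ?_⟩
  simpa using h2

/-- **M3**: the multiplicity at `e_u` of the class C form of a state -/
theorem classC {q E : ℕ} (hq1 : 1 ≤ q) {φ : MvPolynomial (Option (Option τ)) ℂ} (h : MSt τ q E φ) :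
    mulAt (affIdeal (formC φ) (gram τ) (some none)) 0 + E = q ^ Fintype.card τ + q ^ (Fintype.card τ + 1) := by
  have hφ : ∀ o : Option τ, wh (vw τ) q (pderiv (some o) φ) := fun o =>
    wh_pderiv h.wh (some o) q (by rcases o with _ | o <;> rfl)
  obtain ⟨hfin, hdim⟩ := crit_dim hq1 h
  obtain ⟨-, hsplit⟩ := crit_split φ hφ hfin (mst_hi h) (fun x hx => by
    exact one_ne_zero (mst_hii h 1 x hx).1)
  have hz : ∀ f ∈ Ideal.span (Set.range (critSys φ)), eval (0 : Option τ → ℂ) f = 0 := by
    intro f hf
    refine eval_span_zero ?_ hf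
    rintro _ ⟨o, rfl⟩
    unfold critSys
    rw [eval_subN_qc]
    have h3 : (pv ((0 : Option τ → ℂ) none + hq fun i => (0 : Option τ → ℂ) (some i)) ((0 : Option τ → ℂ) none)
        fun i => (0 : Option τ → ℂ) (some i)) = 0 := by
      funext o
      rcases o with _ | _ | o <;> simp [pv, hq]
    rw [h3, ← coe_aeval_eq_eval]
    have h4 := aeval_wh (hφ o) (0 : ℂ) (0 : Option (Option τ) → ℂ)
    rw [zero_pow (by omega : q ≠ 0), zero_mul] at h4
    have h5 : (fun i => (0 : ℂ) ^ vw τ i * (0 : Option (Option τ) → ℂ) i) = (0 : Option (Option τ) → ℂ) := by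
      funext i; simp
    rw [h5] at h4
    exact h4
  have hpos : mulAt (Ideal.span (Set.range (critSys φ))) 0 ≠ 0 := mulAt_ne_zero_of_finite hz hfin
  -- the system
  set f : Option τ → MvPolynomial (Option τ) ℂ := fun o => o.elim (X none) fun i =>
    critSys φ (some i) - X (some i) * critSys φ none with hf
  set g : Option τ → MvPolynomial (Option τ) ℂ := fun o => o.elim (X none) fun i =>
    aeval (p21 τ) (pderiv (some (some i)) φ) with hg
  set d : Option τ → ℕ := fun o => o.elim 2 fun _ => q with hd
  have hI1 : affIdeal (formC φ) (gram τ) (some none) =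
      Ideal.span (Set.range (Function.update f none (f none * critSys φ none))) := by
    unfold formC
    rw [affIdeal_subN]
    apply le_antisymm
    · rw [Ideal.span_le]
      rintro _ ⟨o, rfl⟩
      rcases o with _ | i
      · change chSys _ none ∈ Ideal.span _
        rw [chSys_embC_none]
        exact (neg_mem (Ideal.subset_span ⟨none, by simp [hf]⟩))
      · change chSys _ (some i) ∈ Ideal.span _
        rw [chSys_embC_some]
        exact Ideal.subset_span ⟨some i, by simp [hf]⟩
    · rw [Ideal.span_le]
      rintro _ ⟨o, rfl⟩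
      rcases o with _ | i
      · have h3 : Function.update f none (f none * critSys φ none) none =
            - chSys (rename (embC τ) φ) none := by
          rw [chSys_embC_none, neg_neg]; simp [hf]
        rw [h3]
        exact neg_mem (Ideal.subset_span ⟨none, rfl⟩)
      · have h3 : Function.update f none (f none * critSys φ none) (some i) =
            chSys (rename (embC τ) φ) (some i) := by
          rw [chSys_embC_some]; simp [hf]
        rw [h3]
        exact Ideal.subset_span ⟨some i, rfl⟩
  have hI2 : Ideal.span (Set.range (Function.update f none (critSys φ none))) =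
      Ideal.span (Set.range (critSys φ)) := by
    apply le_antisymm
    · rw [Ideal.span_le]
      rintro _ ⟨o, rfl⟩
      rcases o with _ | i
      · exact Ideal.subset_span ⟨none, by simp⟩
      · have h3 : Function.update f none (critSys φ none) (some i) =
            critSys φ (some i) - X (some i) * critSys φ none := by simp [hf]
        rw [h3]
        exact Ideal.sub_mem _ (Ideal.subset_span ⟨some i, rfl⟩)
          (Ideal.mul_mem_left _ _ (Ideal.subset_span ⟨none, rfl⟩))
    · rw [Ideal.span_le]
      rintro _ ⟨o, rfl⟩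
      have h4 : critSys φ none ∈ Ideal.span (Set.range (Function.update f none (critSys φ none))) :=
        Ideal.subset_span ⟨none, by simp⟩
      rcases o with _ | i
      · exact h4
      · have h3 : critSys φ (some i) = Function.update f none (critSys φ none) (some i) +
            X (some i) * critSys φ none := by simp [hf]
        rw [h3]
        exact Ideal.add_mem _ (Ideal.subset_span ⟨some i, rfl⟩) (Ideal.mul_mem_left _ _ h4)
  have hlead : ∀ o, Lead (w21 τ) (d o) (f o) (g o) := by
    intro o
    rcases o with _ | i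
    · exact Lead.X (w21 τ) none
    · change Lead (w21 τ) q (critSys φ (some i) - X (some i) * critSys φ none)
        (aeval (p21 τ) (pderiv (some (some i)) φ))
      have h3 := (lead_critSys (hφ (some i))).add_hi (f' := - (X (some i) * critSys φ none)) (wlo_neg (by
        have h4 := wlo_mul (wh_X (w21 τ) (some i)).wlo (lead_critSys (hφ none)).lof
        exact wlo_mono (by change q + 1 ≤ 1 + q; omega) h4))
      rw [← sub_eq_add_neg] at h3
      exact h3
  have hw0 : ∀ o, 0 < w21 τ o := by
    intro o; rcases o with _ | i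
    · exact two_pos
    · exact one_pos
  have hd0 : ∀ o, 0 < d o := by
    intro o; rcases o with _ | i
    · exact two_pos
    · exact hq1
  have hwg : ∀ o, wh (w21 τ) (d o) (g o) := by
    intro o; rcases o with _ | i
    · exact wh_X (w21 τ) none
    · exact wh_p21 (hφ (some i))
  have hg0 : ∀ x : Option τ → ℂ, (∀ o, eval x (g o) = 0) → x = 0 := by
    intro x hx
    have h3 : x none = 0 := by
      have := hx none
      simpa [hg] using this
    have h4 : (fun i => x (some i)) = 0 := by
      apply mst_hi h
      intro i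
      have h5 := hx (some i)
      change eval x (aeval (p21 τ) (pderiv (some (some i)) φ)) = 0 at h5
      rw [eval_p21, h3, zero_add] at h5
      exact h5
    funext o
    rcases o with _ | i
    · exact h3
    · exact congrFun h4 i
  have h3 := wMul hw0 hd0 hwg hg0 hlead none (critSys φ none) (by rw [hI2]; exact hpos)
  have h4 := wBez hw0 hd0 hwg hg0 hlead
  rw [hI1, h3, hI2]
  have h5 : ∏ o, w21 τ o = 2 := by
    rw [Fintype.prod_option]
    simp [w21]
  have h6 : ∏ o, d o = 2 * q ^ Fintype.card τ := by
    rw [Fintype.prod_option]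
    simp [hd]
  rw [h5, h6, mul_comm] at h4
  have h7 : mulAt (Ideal.span (Set.range f)) 0 = q ^ Fintype.card τ := Nat.eq_of_mul_eq_mul_left two_pos h4
  rw [h7, add_assoc, ← hdim, hsplit, h.len]

end

end EY
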