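import Mathlib.Algebra.QuadraticAlgebra.Basic
import Pool.Agent.helper50.EY.Cnt

set_option autoImplicit false
set_option linter.unusedSectionVars false
set_option linter.unusedSimpArgs false

/-!
# EY-CntQ: quadratic elimination.  S/(y^2 - c, g) is free of rank 2 over S0/(g), for c and g free of y.
-/

namespace EY

open MvPolynomial

noncomputable section

section CQ

variable {ι : Type*}

/-- the ideal (y^2 - c, g) -/
def IQd {J : Type*} (c : MvPolynomial (Option ι) ℂ) (g : J → MvPolynomial (Option ι) ℂ) :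
    Ideal (MvPolynomial (Option (Option ι)) ℂ) :=
  Ideal.span ({X (some none) ^ 2 - rename (Option.map some) c} ∪
    Set.range fun j => rename (Option.map some) (g j))

theorem iqd_nf {J : Type*} (c : MvPolynomial (Option ι) ℂ) (g : J → MvPolynomial (Option ι) ℂ)
    (s : MvPolynomial (Option (Option ι)) ℂ) :
    ∃ a b : MvPolynomial (Option ι) ℂ,
      s - (rename (Option.map some) a + X (some none) * rename (Option.map some) b) ∈ IQd c g := by
  induction s using MvPolynomial.induction_on with
  | C r =>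
    refine ⟨C r, 0, ?_⟩
    rw [rename_C, map_zero, mul_zero, add_zero, sub_self]
    exact Ideal.zero_mem _
  | add p q hp hq =>
    obtain ⟨a, b, h⟩ := hp
    obtain ⟨a', b', h'⟩ := hq
    refine ⟨a + a', b + b', ?_⟩
    have := Ideal.add_mem _ h h'
    convert this using 1
    rw [map_add, map_add]
    ring
  | mul_X p i hp =>
    obtain ⟨a, b, h⟩ := hp
    have h0 := Ideal.mul_mem_right (X i) _ h
    rcases i with _ | _ | i
    · refine ⟨a * X none, b * X none, ?_⟩
      convert h0 using 1
      rw [map_mul, map_mul, rename_X, Option.map_none]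
      ring
    · refine ⟨c * b, a, ?_⟩
      have h1 : (X (some none) ^ 2 - rename (Option.map some) c : MvPolynomial (Option (Option ι)) ℂ) ∈ IQd c g :=
        Ideal.subset_span (Or.inl rfl)
      have h2 := Ideal.add_mem _ h0 (Ideal.mul_mem_right (rename (Option.map some) b) _ h1)
      convert h2 using 1
      rw [map_mul]
      ring
    · refine ⟨a * X (some i), b * X (some i), ?_⟩
      convert h0 using 1
      rw [map_mul, map_mul, rename_X, Option.map_some]
      ring

/-- the algebra map S -> B[omega]/(omega^2 = c), B = S0/(g) -/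
def qmap {J : Type*} (c : MvPolynomial (Option ι) ℂ) (g : J → MvPolynomial (Option ι) ℂ) :
    MvPolynomial (Option (Option ι)) ℂ →ₐ[ℂ]
      QuadraticAlgebra (MvPolynomial (Option ι) ℂ ⧸ Ideal.span (Set.range g))
        (Ideal.Quotient.mk (Ideal.span (Set.range g)) c) 0 :=
  aeval fun o => match o with
    | none => ⟨Ideal.Quotient.mk _ (X none), 0⟩
    | some none => ⟨0, 1⟩
    | some (some i) => ⟨Ideal.Quotient.mk _ (X (some i)), 0⟩

theorem qmap_y {J : Type*} (c : MvPolynomial (Option ι) ℂ) (g : J → MvPolynomial (Option ι) ℂ) :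
    qmap c g (X (some none)) = ⟨0, 1⟩ := by unfold qmap; rw [aeval_X]

theorem qmap_rename {J : Type*} (c : MvPolynomial (Option ι) ℂ) (g : J → MvPolynomial (Option ι) ℂ)
    (a : MvPolynomial (Option ι) ℂ) :
    qmap c g (rename (Option.map some) a) = ⟨Ideal.Quotient.mk _ a, 0⟩ := by
  have h : (qmap c g).comp (rename (Option.map some)) =
      (IsScalarTower.toAlgHom ℂ (MvPolynomial (Option ι) ℂ ⧸ Ideal.span (Set.range g))
        (QuadraticAlgebra (MvPolynomial (Option ι) ℂ ⧸ Ideal.span (Set.range g))
        (Ideal.Quotient.mk (Ideal.span (Set.range g)) c) 0)).comp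
        (Ideal.Quotient.mkₐ ℂ (Ideal.span (Set.range g))) := by
    apply MvPolynomial.algHom_ext
    intro i
    rw [AlgHom.comp_apply, rename_X]
    unfold qmap
    rw [aeval_X]
    rcases i with _ | i <;> rfl
  exact AlgHom.congr_fun h a

theorem qmap_nf {J : Type*} (c : MvPolynomial (Option ι) ℂ) (g : J → MvPolynomial (Option ι) ℂ)
    (a b : MvPolynomial (Option ι) ℂ) :
    qmap c g (rename (Option.map some) a + X (some none) * rename (Option.map some) b) =
      ⟨Ideal.Quotient.mk _ a, Ideal.Quotient.mk _ b⟩ := by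
  rw [map_add, map_mul, qmap_y, qmap_rename, qmap_rename]
  ext <;> simp

theorem qmap_mem {J : Type*} (c : MvPolynomial (Option ι) ℂ) (g : J → MvPolynomial (Option ι) ℂ)
    {s : MvPolynomial (Option (Option ι)) ℂ} (h : s ∈ IQd c g) : qmap c g s = 0 := by
  have : IQd c g ≤ RingHom.ker (qmap c g).toRingHom := by
    unfold IQd
    rw [Ideal.span_le]
    rintro x (hx | ⟨j, rfl⟩)
    · rw [Set.mem_singleton_iff.mp hx]
      change qmap c g _ = 0
      rw [map_sub, map_pow, qmap_y, qmap_rename, pow_two]
      ext <;> simp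
    · change qmap c g (rename (Option.map some) (g j)) = 0
      have hj : Ideal.Quotient.mk (Ideal.span (Set.range g)) (g j) = 0 :=
        Ideal.Quotient.eq_zero_iff_mem.mpr (Ideal.subset_span (Set.mem_range_self j))
      rw [qmap_rename, hj]
      rfl
  exact this h

theorem ren_mem {J : Type*} (c : MvPolynomial (Option ι) ℂ) (g : J → MvPolynomial (Option ι) ℂ)
    {a : MvPolynomial (Option ι) ℂ} (h : a ∈ Ideal.span (Set.range g)) :
    rename (Option.map some) a ∈ IQd c g := by
  have : Ideal.span (Set.range g) ≤ (IQd c g).comap (rename (Option.map some)) := by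
    rw [Ideal.span_le]
    rintro _ ⟨j, rfl⟩
    exact Ideal.subset_span (Or.inr ⟨j, rfl⟩)
  exact this h

theorem qmap_ker {J : Type*} (c : MvPolynomial (Option ι) ℂ) (g : J → MvPolynomial (Option ι) ℂ)
    (s : MvPolynomial (Option (Option ι)) ℂ) : qmap c g s = 0 ↔ s ∈ IQd c g := by
  refine ⟨fun h => ?_, qmap_mem c g⟩
  obtain ⟨a, b, hab⟩ := iqd_nf c g s
  have h1 := qmap_mem c g hab
  rw [map_sub, h, zero_sub, neg_eq_zero, qmap_nf] at h1
  have ha : Ideal.Quotient.mk (Ideal.span (Set.range g)) a = 0 := congrArg QuadraticAlgebra.re h1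
  have hb : Ideal.Quotient.mk (Ideal.span (Set.range g)) b = 0 := congrArg QuadraticAlgebra.im h1
  rw [Ideal.Quotient.eq_zero_iff_mem] at ha hb
  have h2 := Ideal.add_mem _ hab (Ideal.add_mem _ (ren_mem c g ha)
    (Ideal.mul_mem_left _ (X (some none)) (ren_mem c g hb)))
  rwa [sub_add_cancel] at h2

theorem qmap_surj {J : Type*} (c : MvPolynomial (Option ι) ℂ) (g : J → MvPolynomial (Option ι) ℂ) :
    Function.Surjective (qmap c g) := by
  rintro ⟨a, b⟩
  obtain ⟨a, rfl⟩ := Ideal.Quotient.mk_surjective a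
  obtain ⟨b, rfl⟩ := Ideal.Quotient.mk_surjective b
  exact ⟨_, qmap_nf c g a b⟩

/-- (C2q) as a linear equivalence -/
theorem cnt_quad {J : Type*} (c : MvPolynomial (Option ι) ℂ) (g : J → MvPolynomial (Option ι) ℂ) :
    Nonempty ((MvPolynomial (Option (Option ι)) ℂ ⧸ Ideal.span
        ({X (some none) ^ 2 - rename (Option.map some) c} ∪
          Set.range fun j => rename (Option.map some) (g j))) ≃ₗ[ℂ]
      ((MvPolynomial (Option ι) ℂ ⧸ Ideal.span (Set.range g)) ×
        (MvPolynomial (Option ι) ℂ ⧸ Ideal.span (Set.range g)))) := by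
  have hk : RingHom.ker (qmap c g) = IQd c g := by
    ext s
    rw [RingHom.mem_ker]
    exact qmap_ker c g s
  have e1 := Ideal.quotientKerAlgEquivOfSurjective (qmap_surj c g)
  have e0 := Ideal.quotientEquivAlgOfEq ℂ hk
  have e2 : QuadraticAlgebra (MvPolynomial (Option ι) ℂ ⧸ Ideal.span (Set.range g))
      (Ideal.Quotient.mk (Ideal.span (Set.range g)) c) 0 ≃ₗ[ℂ]
      ((MvPolynomial (Option ι) ℂ ⧸ Ideal.span (Set.range g)) ×
        (MvPolynomial (Option ι) ℂ ⧸ Ideal.span (Set.range g))) :=
    { toFun := fun z => (z.re, z.im)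
      invFun := fun z => ⟨z.1, z.2⟩
      left_inv := fun z => rfl
      right_inv := fun z => rfl
      map_add' := fun _ _ => rfl
      map_smul' := fun _ _ => rfl }
  exact ⟨(e0.symm.trans e1).toLinearEquiv.trans e2⟩

/-- (C2q) quadratic elimination -/
theorem cnt_quad_finite {J : Type*} (c : MvPolynomial (Option ι) ℂ) (g : J → MvPolynomial (Option ι) ℂ)
    (h : Module.Finite ℂ (MvPolynomial (Option ι) ℂ ⧸ Ideal.span (Set.range g))) :
    Module.Finite ℂ (MvPolynomial (Option (Option ι)) ℂ ⧸ Ideal.span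
        ({X (some none) ^ 2 - rename (Option.map some) c} ∪
          Set.range fun j => rename (Option.map some) (g j))) := by
  obtain ⟨e⟩ := cnt_quad c g
  exact Module.Finite.equiv e.symm

theorem cnt_quad_finrank {J : Type*} (c : MvPolynomial (Option ι) ℂ) (g : J → MvPolynomial (Option ι) ℂ)
    (h : Module.Finite ℂ (MvPolynomial (Option ι) ℂ ⧸ Ideal.span (Set.range g))) :
    Module.finrank ℂ (MvPolynomial (Option (Option ι)) ℂ ⧸ Ideal.span
        ({X (some none) ^ 2 - rename (Option.map some) c} ∪
          Set.range fun j => rename (Option.map some) (g j))) =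
      2 * Module.finrank ℂ (MvPolynomial (Option ι) ℂ ⧸ Ideal.span (Set.range g)) := by
  obtain ⟨e⟩ := cnt_quad c g
  rw [e.finrank_eq, Module.finrank_prod, two_mul]

end CQ

end

end EY
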