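import Pool.Agent.helper50.EY.ZRz
import Pool.Agent.helper51.EY.ZSt
import Pool.Agent.helper51.EY.ZT2
import Pool.Agent.helper51.EY.ZT3
import Pool.Agent.helper51.EY.ZT4
import Pool.Agent.helper74.EY.ZJ2
import Pool.Agent.helper50.EY.Open

set_option autoImplicit false
set_option linter.unusedSectionVars false
set_option linter.unusedSimpArgs false

/-!
# EY-TRz: the degrees realized by the steps T2, T3, T4 over the metric free states of `ZSt.lean`
-/

namespace EY

open MvPolynomial Filter Topology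

noncomputable section

variable {ρ : Type} [Fintype ρ] [DecidableEq ρ]

/-! ### the `U0` states -/

theorem scT_rename (s : ℂ) (P : MvPolynomial (Option (Option ρ)) ℂ) :
    scT s (rename some P : MvPolynomial (Option (Option (Option ρ))) ℂ) = rename some P := by
  have h : (scT s).comp (rename some : MvPolynomial (Option (Option ρ)) ℂ →ₐ[ℂ] _) = rename some := by
    apply MvPolynomial.algHom_ext
    intro i
    rw [AlgHom.comp_apply, rename_X, scT_some]
  exact AlgHom.congr_fun h P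

theorem scT_phiU0 (q : ℕ) (s t : ℂ) (P : MvPolynomial (Option (Option ρ)) ℂ) :
    scT s (phiU0 ρ q t P) = phiU0 ρ q (t * s) P := by
  unfold phiU0
  have hC : scT s (C t : MvPolynomial (Option (Option (Option ρ))) ℂ) = C t := by unfold scT; rw [aeval_C]; rfl
  rw [map_add, map_mul, map_mul, map_pow, scT_none, scT_some, scT_rename, hC, C_mul]
  ring

theorem pderiv_rename_some' (v : Option (Option ρ)) (P : MvPolynomial (Option (Option ρ)) ℂ) :
    pderiv (some v) (rename some P : MvPolynomial (Option (Option (Option ρ))) ℂ) = rename some (pderiv v P) := by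
  exact pderiv_rename (f := (some : Option (Option ρ) → _)) (Option.some_injective _) (x := v) (p := P)

theorem pderiv_phiU0_w (q : ℕ) (t : ℂ) (P : MvPolynomial (Option (Option ρ)) ℂ) :
    pderiv (some none) (phiU0 ρ q t P) = rename some (pderiv none P) := by
  unfold phiU0
  rw [map_add, pderiv_rename_some']
  simp [Derivation.leibniz, Derivation.leibniz_pow, pderiv_X, Pi.single_apply]

theorem pderiv_phiU0_z (q : ℕ) (t : ℂ) (P : MvPolynomial (Option (Option ρ)) ℂ) (r : ρ) :
    pderiv (some (some (some r))) (phiU0 ρ q t P) = rename some (pderiv (some (some r)) P) := by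
  unfold phiU0
  rw [map_add, pderiv_rename_some']
  simp [Derivation.leibniz, Derivation.leibniz_pow, pderiv_X, Pi.single_apply]

/-- **T2** over a `U0` state -/
theorem t2_rz {q N : ℕ} (hq3 : 3 ≤ q) {P : MvPolynomial (Option (Option ρ)) ℂ} (hP : U0P ρ q N P)
    (hst : ∀ t : ℂ, t ≠ 0 → St (Option ρ) q N (phiU0 ρ q t P)) :
    Rz q (Fintype.card ρ + 4)
      (q ^ (Fintype.card ρ + 1) + q ^ (Fintype.card ρ + 2) - N + 2 * q ^ (Fintype.card ρ + 1)) := by
  obtain ⟨s, hs, hM⟩ := exists_mst (hst 1 one_ne_zero)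
  rw [scT_phiU0, one_mul] at hM
  obtain ⟨ω, hω, hω'⟩ := exists_good (hM.toSt.finZ_generic none)
  have hb := not_not.mp hω'
  have hJ₁ : ∀ θ : ℂ, θ ≠ 0 → mulAt (Ideal.span (Set.range (zSys (phiU0 ρ q s P) θ ω (zh ρ ω)))) 0 =
      2 * (q - 1) * q ^ Fintype.card ρ := fun θ hθ => zT2_J1 hq3 P hP.hom hs hθ hω hP.nswb
  have hJ₂ : ∀ θ : ℂ, θ ≠ 0 → mulAt (Ideal.span (Set.range (zSys (phiU0 ρ q s P) θ ω (zv ρ q)))) 0 =
      2 * q ^ Fintype.card ρ := fun θ hθ => z_J2 hq3 hM.wh hθ ω (by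
    intro z hz
    have h1 := hP.nswb (fun o => o.elim 0 fun o' => o'.elim 0 z) rfl rfl (by
      intro r
      have h2 := hz r
      rw [pderiv_phiU0_z, eval_rename] at h2
      exact h2)
    funext r
    exact congrFun h1 (some (some r)))
  have hq0 : 0 < q ^ Fintype.card ρ := by positivity
  have h1 := z_rz (by omega) hM ω hb hJ₁ hJ₂
    (Nat.mul_ne_zero (Nat.mul_ne_zero two_ne_zero (by omega)) hq0.ne') (by omega)
  have h2 : 2 * (q - 1) * q ^ Fintype.card ρ + 2 * q ^ Fintype.card ρ = 2 * q ^ (Fintype.card ρ + 1) := by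
    obtain ⟨k, rfl⟩ : ∃ k, q = k + 1 := ⟨q - 1, by omega⟩
    rw [Nat.add_sub_cancel]
    ring
  rwa [h2] at h1

/-- **T3** over a `U0` state -/
theorem t3_rz {q N : ℕ} (hq3 : 3 ≤ q) {P : MvPolynomial (Option (Option ρ)) ℂ} (hP : U0P ρ q N P)
    (hst : ∀ t : ℂ, t ≠ 0 → St (Option ρ) q N (phiU0 ρ q t P)) :
    Rz q (Fintype.card ρ + 4)
      (q ^ (Fintype.card ρ + 1) + q ^ (Fintype.card ρ + 2) - N +
        (2 * q ^ (Fintype.card ρ + 1) + 2 * q ^ Fintype.card ρ)) := by
  obtain ⟨s, hs, hM⟩ := exists_mst (hst 1 one_ne_zero)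
  rw [scT_phiU0, one_mul] at hM
  have hb : ∀ (s' w : ℂ) (x : Option ρ → ℂ), (∀ o, eval (vec s' w x) (pderiv (some o) (phiU0 ρ q s P)) = 0) →
      x none + 0 * w = 0 → w = 0 := by
    intro s' w x h1 h2
    rw [zero_mul, add_zero] at h2
    have h3 := hP.nsb (fun o => o.elim w fun o' => x o') h2 (by
      have h4 := h1 none
      rw [pderiv_phiU0_w, eval_rename] at h4
      exact h4) (by
      intro r
      have h4 := h1 (some (some r))
      rw [pderiv_phiU0_z, eval_rename] at h4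
      exact h4)
    exact congrFun h3 none
  have hJ₁ : ∀ θ : ℂ, θ ≠ 0 → mulAt (Ideal.span (Set.range (zSys (phiU0 ρ q s P) θ 0 (zh ρ 0)))) 0 =
      2 * q ^ (Fintype.card ρ + 1) := fun θ hθ => zT3_J1 hq3 P hP.hom hθ hP.nsb
  have hJ₂ : ∀ θ : ℂ, θ ≠ 0 → mulAt (Ideal.span (Set.range (zSys (phiU0 ρ q s P) θ 0 (zv ρ q)))) 0 =
      2 * q ^ Fintype.card ρ := fun θ hθ => z_J2 hq3 hM.wh hθ 0 (by
    intro z hz
    have h1 := hP.nswb (fun o => o.elim 0 fun o' => o'.elim 0 z) rfl rfl (by
      intro r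
      have h2 := hz r
      rw [pderiv_phiU0_z, eval_rename] at h2
      exact h2)
    funext r
    exact congrFun h1 (some (some r)))
  have hq0 : 0 < q ^ Fintype.card ρ := by positivity
  have hq1 : 0 < q ^ (Fintype.card ρ + 1) := by positivity
  exact z_rz (by omega) hM 0 hb hJ₁ hJ₂ (by omega) (by omega)

/-! ### the states of T4 -/

theorem eval_zpt_scT (s σ w b : ℂ) (z : ρ → ℂ) (χ : MvPolynomial (Option (Option (Option ρ))) ℂ) :
    eval (zpt σ w b z) (scT s χ) = eval (zpt (s * σ) w b z) χ := by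
  rw [eval_scT]
  congr 2

theorem cont_zpt {α : Type*} [TopologicalSpace α] {a b c : α → ℂ} {d : α → ρ → ℂ} (ha : Continuous a)
    (hb : Continuous b) (hc : Continuous c) (hd : Continuous d) (ψ : MvPolynomial (Option (Option (Option ρ))) ℂ) :
    Continuous fun x => eval (zpt (a x) (b x) (c x) (d x)) ψ := by
  apply (MvPolynomial.continuous_eval ψ).comp
  apply continuous_pi
  intro i
  rcases i with _ | _ | _ | i
  · exact ha
  · exact hb
  · exact hc
  · exact (continuous_apply i).comp hd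

theorem scale_zpt {n : ℕ} {χ : MvPolynomial (Option (Option (Option ρ))) ℂ} (hχ : wh (vw (Option ρ)) n χ)
    (c σ w b : ℂ) (z : ρ → ℂ) :
    eval (zpt (c ^ 2 * σ) (c * w) (c * b) (c • z)) χ = c ^ n * eval (zpt σ w b z) χ := by
  have h1 := aeval_wh hχ c (zpt σ w b z)
  simp only [aeval_eq_eval] at h1
  refine Eq.trans ?_ h1
  congr 2
  funext i
  rcases i with _ | _ | _ | i
  · simp [zpt, vec, vw]
  · simp [zpt, vec, vw]
  · simp [zpt, vec, vw]
  · simp [zpt, vec, vw]

/-- for small `s` the condition `hB` holds for `scT s φ` -/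
theorem nz_scT {q : ℕ} {φ : MvPolynomial (Option (Option (Option ρ))) ℂ} (hφ : wh (vw (Option ρ)) (q + 1) φ)
    (hnz : ∀ z : ρ → ℂ, (∀ r, eval (zpt 0 0 0 z) (pderiv (some (some (some r))) φ) = 0) → z = 0) :
    ∀ᶠ s in 𝓝 (0 : ℂ), ∀ z : ρ → ℂ,
      (∀ r, eval (zpt (hq z) 0 0 z) (pderiv (some (some (some r))) (scT s φ)) = 0) → z = 0 := by
  have hφ' : ∀ o : Option (Option ρ), wh (vw (Option ρ)) q (pderiv (some o) φ) := fun o =>
    wh_pderiv hφ (some o) q (by rcases o with _ | o <;> rfl)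
  have h1 : ∀ᶠ s in 𝓝 (0 : ℂ), ∀ z : ρ → ℂ,
      (∀ r : ρ, eval (zpt (s * hq z) 0 0 z) (pderiv (some (some (some r))) φ) = 0) → z = 0 := by
    refine open_zero (fun (r : ρ) (s : ℂ) (z : ρ → ℂ) =>
      eval (zpt (s * hq z) 0 0 z) (pderiv (some (some (some r))) φ)) (fun _ => q) ?_ ?_ 0 ?_
    · intro r
      exact cont_zpt (continuous_fst.mul (cont_hq continuous_snd)) continuous_const continuous_const
        continuous_snd _
    · intro r s c z
      have h2 := scale_zpt (hφ' (some (some r))) c (s * hq z) 0 0 z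
      rw [mul_zero] at h2
      rw [← h2]
      congr 2
      funext o
      rcases o with _ | _ | _ | o
      · change s * hq (c • z) = c ^ 2 * (s * hq z)
        unfold hq
        simp only [Pi.smul_apply, smul_eq_mul, mul_pow, ← Finset.mul_sum]
        ring
      · rfl
      · rfl
      · rfl
    · intro z hz
      apply hnz
      intro r
      have h2 := hz r
      rwa [zero_mul] at h2
  filter_upwards [h1] with s hs z hz
  apply hs
  intro r
  have h2 := hz r
  rwa [pderiv_scT_some, eval_zpt_scT] at h2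

/-- for all small `μ`: no critical line of `φ_b - μ φ_w`, `φ_z` on `w = b = 0` -/
theorem nb_open {q : ℕ} {φ : MvPolynomial (Option (Option (Option ρ))) ℂ} (hφ : wh (vw (Option ρ)) (q + 1) φ)
    (hnb : ∀ (s : ℂ) (z : ρ → ℂ), (∀ i : Option ρ, eval (zpt s 0 0 z) (pderiv (some (some i)) φ) = 0) →
      s = 0 ∧ z = 0) :
    ∀ᶠ μ in 𝓝 (0 : ℂ), ∀ (s : ℂ) (z : ρ → ℂ),
      eval (zpt s 0 0 z) (pderiv (some (some none)) φ) = μ * eval (zpt s 0 0 z) (pderiv (some none) φ) →
      (∀ r, eval (zpt s 0 0 z) (pderiv (some (some (some r))) φ) = 0) → s = 0 ∧ z = 0 := by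
  have hφ' : ∀ o : Option (Option ρ), wh (vw (Option ρ)) q (pderiv (some o) φ) := fun o =>
    wh_pderiv hφ (some o) q (by rcases o with _ | o <;> rfl)
  have hsc : ∀ (o : Option (Option ρ)) (c : ℂ) (y : Option ρ → ℂ),
      eval (zpt ((c • y) none ^ 2) 0 0 fun r => (c • y) (some r)) (pderiv (some o) φ) =
        c ^ q * eval (zpt (y none ^ 2) 0 0 fun r => y (some r)) (pderiv (some o) φ) := by
    intro o c y
    have h2 := scale_zpt (hφ' o) c (y none ^ 2) 0 0 fun r => y (some r)
    rw [mul_zero] at h2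
    rw [← h2]
    congr 2
    funext o
    rcases o with _ | _ | _ | o
    · change (c • y) none ^ 2 = c ^ 2 * y none ^ 2
      rw [Pi.smul_apply, smul_eq_mul, mul_pow]
    · rfl
    · rfl
    · rfl
  have hct : ∀ o : Option (Option ρ), Continuous fun z : ℂ × (Option ρ → ℂ) =>
      eval (zpt (z.2 none ^ 2) 0 0 fun r => z.2 (some r)) (pderiv (some o) φ) := by
    intro o
    refine cont_zpt ?_ continuous_const continuous_const ?_ _
    · fun_prop
    · fun_prop
  have h1 : ∀ᶠ μ in 𝓝 (0 : ℂ), ∀ y : Option ρ → ℂ,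
      (∀ i : Option ρ, (i.elim (eval (zpt (y none ^ 2) 0 0 fun r => y (some r)) (pderiv (some (some none)) φ) -
          μ * eval (zpt (y none ^ 2) 0 0 fun r => y (some r)) (pderiv (some none) φ))
        fun r => eval (zpt (y none ^ 2) 0 0 fun r => y (some r)) (pderiv (some (some (some r))) φ)) = 0) → y = 0 := by
    refine open_zero (fun (i : Option ρ) (μ : ℂ) (y : Option ρ → ℂ) =>
      (i.elim (eval (zpt (y none ^ 2) 0 0 fun r => y (some r)) (pderiv (some (some none)) φ) -
          μ * eval (zpt (y none ^ 2) 0 0 fun r => y (some r)) (pderiv (some none) φ))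
        fun r => eval (zpt (y none ^ 2) 0 0 fun r => y (some r)) (pderiv (some (some (some r))) φ)))
      (fun _ => q) ?_ ?_ 0 ?_
    · intro i
      rcases i with _ | r
      · exact (hct (some none)).sub (continuous_fst.mul (hct none))
      · exact hct (some (some r))
    · intro i μ c y
      rcases i with _ | r
      · change eval (zpt ((c • y) none ^ 2) 0 0 fun r => (c • y) (some r)) (pderiv (some (some none)) φ) -
          μ * eval (zpt ((c • y) none ^ 2) 0 0 fun r => (c • y) (some r)) (pderiv (some none) φ) =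
          c ^ q * (eval (zpt (y none ^ 2) 0 0 fun r => y (some r)) (pderiv (some (some none)) φ) -
          μ * eval (zpt (y none ^ 2) 0 0 fun r => y (some r)) (pderiv (some none) φ))
        rw [hsc, hsc]
        ring
      · exact hsc (some (some r)) c y
    · intro y hy
      obtain ⟨h2, h3⟩ := hnb (y none ^ 2) (fun r => y (some r)) (by
        intro i
        have h4 := hy i
        rcases i with _ | r
        · change eval _ _ - 0 * _ = 0 at h4
          rwa [zero_mul, sub_zero] at h4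
        · exact h4)
      funext i
      rcases i with _ | r
      · exact pow_eq_zero_iff (two_ne_zero) |>.mp h2
      · exact congrFun h3 r
  filter_upwards [h1] with μ hμ s z hb hz
  obtain ⟨c, hc⟩ := IsAlgClosed.exists_pow_nat_eq s (n := 2) (by norm_num)
  have h2 := hμ (fun o => o.elim c z) (by
    intro i
    rcases i with _ | r
    · change eval (zpt (c ^ 2) 0 0 z) (pderiv (some (some none)) φ) -
        μ * eval (zpt (c ^ 2) 0 0 z) (pderiv (some none) φ) = 0
      rw [hc, hb, sub_self]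
    · change eval (zpt (c ^ 2) 0 0 z) (pderiv (some (some (some r))) φ) = 0
      rw [hc]
      exact hz r)
  refine ⟨?_, ?_⟩
  · have h3 : c = 0 := congrFun h2 none
    rw [← hc, h3]
    norm_num
  · funext r
    exact congrFun h2 (some r)

/-- **T4** over a `T4` state -/
theorem t4_rz {q E : ℕ} (hq3 : 3 ≤ q) {φ : MvPolynomial (Option (Option (Option ρ))) ℂ} (h : T4St ρ q E φ) :
    Rz q (Fintype.card ρ + 4)
      (q ^ (Fintype.card ρ + 1) + q ^ (Fintype.card ρ + 2) - E +
        (q ^ (Fintype.card ρ + 1) + 2 * q ^ Fintype.card ρ)) := by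
  have h3 : ∀ᶠ t in 𝓝[≠] (0 : ℂ), t ≠ 0 := eventually_mem_nhdsWithin
  obtain ⟨s, ⟨hM, hB⟩, hs⟩ :=
    (((mst_scT h.st).and ((nz_scT h.st.wh h.nz).filter_mono nhdsWithin_le_nhds)).and h3).exists
  have hnb : ∀ (σ : ℂ) (z : ρ → ℂ), (∀ i : Option ρ, eval (zpt σ 0 0 z) (pderiv (some (some i)) (scT s φ)) = 0) →
      σ = 0 ∧ z = 0 := by
    intro σ z hi
    obtain ⟨h4, h5⟩ := h.nb (s * σ) z (by
      intro i
      have h6 := hi i
      rwa [pderiv_scT_some, eval_zpt_scT] at h6)
    exact ⟨(mul_eq_zero.mp h4).resolve_left hs, h5⟩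
  have hgen := hM.toSt.finZ_generic none
  have hbad : ∀ᶠ μ in 𝓝 (0 : ℂ), μ ∉ (hgen.toFinset.image fun x => x⁻¹).erase 0 := by
    have hcl : IsClosed (((hgen.toFinset.image fun x => x⁻¹).erase 0 : Finset ℂ) : Set ℂ) :=
      Finset.isClosed _
    have := hcl.isOpen_compl.mem_nhds (x := (0 : ℂ)) (by simp)
    filter_upwards [this] with μ hμ h4
    exact hμ (Finset.mem_coe.mpr h4)
  obtain ⟨μ, hμ0, hμ1, hμ2⟩ := exists_ne_of_eventually ((nb_open hM.wh hnb).and hbad)
  have hω' : ¬ μ⁻¹ ∈ {ω : ℂ | ¬ ∀ (s' w : ℂ) (x : Option ρ → ℂ),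
      (∀ o, eval (vec s' w x) (pderiv (some o) (scT s φ)) = 0) → x none + ω * w = 0 → w = 0} := by
    intro h4
    apply hμ2
    refine Finset.mem_erase.mpr ⟨hμ0, Finset.mem_image.mpr ⟨μ⁻¹, hgen.mem_toFinset.mpr h4, inv_inv μ⟩⟩
  have hb := not_not.mp hω'
  have hJ₁ : ∀ θ : ℂ, θ ≠ 0 → mulAt (Ideal.span (Set.range (zSys (scT s φ) θ μ⁻¹ (zh ρ μ⁻¹)))) 0 =
      q ^ (Fintype.card ρ + 1) := fun θ hθ => zT4_J1 hq3 hM.wh hθ (inv_ne_zero hμ0) (by
    intro σ z h4 h5
    refine hμ1 σ z ?_ h5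
    rw [h4, ← mul_assoc, mul_inv_cancel₀ hμ0, one_mul])
  have hJ₂ : ∀ θ : ℂ, θ ≠ 0 → mulAt (Ideal.span (Set.range (zSys (scT s φ) θ μ⁻¹ (zv ρ q)))) 0 =
      2 * q ^ Fintype.card ρ := fun θ hθ => z_J2 hq3 hM.wh hθ μ⁻¹ hB
  have hq0 : 0 < q ^ Fintype.card ρ := by positivity
  have hq1 : 0 < q ^ (Fintype.card ρ + 1) := by positivity
  exact z_rz (by omega) hM μ⁻¹ hb hJ₁ hJ₂ (by omega) (by omega)

end

end EY
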