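import Pool.Agent.helper51.EY.ZSt
import Pool.Agent.helper50.EY.Cnt

set_option autoImplicit false
set_option linter.unusedSectionVars false
set_option linter.unusedSimpArgs false

/-!
# EY-U0St: the `U0` forms are class C states
-/

namespace EY

open MvPolynomial

noncomputable section

variable {ρ : Type} [Fintype ρ] [DecidableEq ρ]

/-- the value at `w = 1` -/
def ewU (ρ : Type) : MvPolynomial (Option (Option ρ)) ℂ →ₐ[ℂ] MvPolynomial (Option ρ) ℂ :=
  aeval fun i : Option (Option ρ) => i.elim (1 : MvPolynomial (Option ρ) ℂ) X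

theorem eval_ewU (x : Option ρ → ℂ) (χ : MvPolynomial (Option (Option ρ)) ℂ) :
    eval x (ewU ρ χ) = eval (fun i => i.elim 1 x) χ := by
  have h : (eval x).comp (ewU ρ : MvPolynomial (Option (Option ρ)) ℂ →ₐ[ℂ] _).toRingHom =
      eval (fun i => i.elim 1 x) := by
    apply MvPolynomial.ringHom_ext
    · intro c
      simp [ewU]
    · intro o
      rcases o with _ | o <;> simp [ewU]
  exact RingHom.congr_fun h χ

theorem ev1_ren (χ : MvPolynomial (Option (Option ρ)) ℂ) :
    ev1 (rename some χ : MvPolynomial (Option (Option (Option ρ))) ℂ) = rename some (ewU ρ χ) := by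
  have h : (ev1 (τ := Option ρ)).comp (rename some : MvPolynomial (Option (Option ρ)) ℂ →ₐ[ℂ] _) =
      (rename some : MvPolynomial (Option ρ) ℂ →ₐ[ℂ] _).comp (ewU ρ) := by
    apply MvPolynomial.algHom_ext
    intro o
    rcases o with _ | o
    · simp [ev1, ewU]
    · simp [ev1, ewU]
  exact AlgHom.congr_fun h χ

theorem pd_ren (v : Option (Option ρ)) (P : MvPolynomial (Option (Option ρ)) ℂ) :
    pderiv (some v) (rename some P : MvPolynomial (Option (Option (Option ρ))) ℂ) = rename some (pderiv v P) :=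
  pderiv_rename (f := (some : Option (Option ρ) → _)) (Option.some_injective _) (x := v) (p := P)

theorem pd_U0_w (q : ℕ) (t : ℂ) (P : MvPolynomial (Option (Option ρ)) ℂ) :
    pderiv (some none) (phiU0 ρ q t P) = rename some (pderiv none P) := by
  unfold phiU0
  rw [map_add, pd_ren]
  simp [Derivation.leibniz, Derivation.leibniz_pow, pderiv_X, Pi.single_apply]

theorem pd_U0_z (q : ℕ) (t : ℂ) (P : MvPolynomial (Option (Option ρ)) ℂ) (r : ρ) :
    pderiv (some (some (some r))) (phiU0 ρ q t P) = rename some (pderiv (some (some r)) P) := by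
  unfold phiU0
  rw [map_add, pd_ren]
  simp [Derivation.leibniz, Derivation.leibniz_pow, pderiv_X, Pi.single_apply]

theorem pd_U0_b {q : ℕ} (hq3 : 3 ≤ q) (t : ℂ) (P : MvPolynomial (Option (Option ρ)) ℂ) :
    pderiv (some (some none)) (phiU0 ρ q t P) =
      C (t * ((q - 1 : ℕ) : ℂ)) * (X none * X (some (some none)) ^ (q - 2)) + rename some (pderiv (some none) P) := by
  unfold phiU0
  rw [map_add, pd_ren]
  congr 1
  simp only [Derivation.leibniz, Derivation.leibniz_pow, pderiv_X, Pi.single_apply, pderiv_C, smul_eq_mul,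
    if_true, reduceCtorEq, if_false, nsmul_eq_mul]
  have e : q - 1 - 1 = q - 2 := by omega
  rw [e, C_mul]
  simp
  ring

theorem wh_homog {n : ℕ} {P : MvPolynomial (Option (Option ρ)) ℂ} (hP : P.IsHomogeneous n) :
    wh (vw (Option ρ)) n (rename some P) := by
  intro β hβ
  obtain ⟨α, hα, hc⟩ := coeff_rename_ne_zero _ _ _ hβ
  have h1 := hP hc
  rw [← hα]
  unfold wd
  have h2 : ∀ i : Option (Option ρ), (Finsupp.mapDomain some α) (some i) = α i :=
    fun i => Finsupp.mapDomain_apply (Option.some_injective _) α i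
  have h3 : (Finsupp.mapDomain (some : Option (Option ρ) → _) α) none = 0 := by
    apply Finsupp.mapDomain_of_notMem_range
    rintro ⟨o, ho⟩
    simp at ho
  rw [Fintype.sum_option, h3, mul_zero, zero_add]
  simp only [h2]
  rw [← h1, Finsupp.weight_apply, Finsupp.sum_fintype _ _ (by simp)]
  refine Finset.sum_congr rfl fun i _ => ?_
  simp [vw]

/-- `b` is a unit modulo `(P_w, P_z)(1, b, z)` -/
theorem u0_unit {q N : ℕ} {P : MvPolynomial (Option (Option ρ)) ℂ} (hP : U0P ρ q N P) :
    ∃ c0 : MvPolynomial (Option ρ) ℂ, X none * c0 - 1 ∈ Ideal.span (Set.range fun o : Option ρ =>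
      ewU ρ (pderiv (o.elim (none : Option (Option ρ)) fun r => some (some r)) P)) := by
  set I0 := Ideal.span (Set.range fun o : Option ρ =>
      ewU ρ (pderiv (o.elim (none : Option (Option ρ)) fun r => some (some r)) P)) with hI0
  have htop : I0 ⊔ Ideal.span {X none} = ⊤ := by
    by_contra hne
    obtain ⟨m, hm, hle⟩ := Ideal.exists_le_maximal _ hne
    obtain ⟨x, hx⟩ := isMaximal_iff_eq_vanishingIdeal_singleton.mp hm
    have hev : ∀ g ∈ m, eval x g = 0 := by
      intro g hg
      rw [hx, mem_vanishingIdeal_singleton_iff] at hg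
      simpa [aeval_eq_eval] using hg
    have h0 : ∀ o : Option ρ, eval (fun i : Option (Option ρ) => i.elim (1 : ℂ) x)
        (pderiv (o.elim (none : Option (Option ρ)) fun r => some (some r)) P) = 0 := by
      intro o
      have h1 := hev _ (hle (Ideal.mem_sup_left (Ideal.subset_span ⟨o, rfl⟩)))
      rwa [eval_ewU] at h1
    have hb : x none = 0 := by
      have h1 := hev _ (hle (Ideal.mem_sup_right (Ideal.subset_span rfl)))
      rwa [eval_X] at h1
    have h1 := hP.nsb (fun i : Option (Option ρ) => i.elim (1 : ℂ) x) hb (h0 none) (fun r => h0 (some r))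
    exact one_ne_zero (congrFun h1 none : (1 : ℂ) = 0)
  obtain ⟨y, hy, z, hz, hyz⟩ := Submodule.mem_sup.mp ((Ideal.eq_top_iff_one _).mp htop)
  obtain ⟨c0, rfl⟩ := Ideal.mem_span_singleton'.mp hz
  refine ⟨c0, ?_⟩
  have h1 : X none * c0 - 1 = -y := by rw [← hyz]; ring
  rw [h1]
  exact Ideal.neg_mem_iff _ |>.mpr hy

theorem u0_quot {q N : ℕ} (hq3 : 3 ≤ q) {P : MvPolynomial (Option (Option ρ)) ℂ} (hP : U0P ρ q N P) {t : ℂ}
    (ht : t ≠ 0) :
    Nonempty ((MvPolynomial (Option (Option ρ)) ℂ ⧸ Ideal.span (Set.range (critOne (phiU0 ρ q t P)))) ≃ₐ[ℂ]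
      (MvPolynomial (Option ρ) ℂ ⧸ Ideal.span (Set.range fun o : Option ρ =>
        ewU ρ (pderiv (o.elim (none : Option (Option ρ)) fun r => some (some r)) P)))) := by
  obtain ⟨c0, hc0⟩ := u0_unit hP
  set I0 := Ideal.span (Set.range fun o : Option ρ =>
      ewU ρ (pderiv (o.elim (none : Option (Option ρ)) fun r => some (some r)) P)) with hI0
  set I := Ideal.span (Set.range (critOne (phiU0 ρ q t P))) with hI
  obtain ⟨κ, hκ⟩ : ∃ κ : ℂ, κ = t * ((q - 1 : ℕ) : ℂ) := ⟨_, rfl⟩
  have hκ0 : κ ≠ 0 := by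
    rw [hκ]
    exact mul_ne_zero ht (Nat.cast_ne_zero.mpr (by omega))
  set Pb := ewU ρ (pderiv (some none) P) with hPb
  have hw : critOne (phiU0 ρ q t P) none = rename some (ewU ρ (pderiv none P)) := by
    unfold critOne
    rw [pd_U0_w, ev1_ren]
  have hz : ∀ r, critOne (phiU0 ρ q t P) (some (some r)) = rename some (ewU ρ (pderiv (some (some r)) P)) := by
    intro r
    unfold critOne
    rw [pd_U0_z, ev1_ren]
  have hb : critOne (phiU0 ρ q t P) (some none) =
      C κ * (X none * X (some none) ^ (q - 2)) + rename some Pb := by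
    unfold critOne
    rw [pd_U0_b hq3, ← hκ, map_add, ev1_ren, map_mul, map_mul, map_pow]
    have e1 : (ev1 (C κ) : MvPolynomial (Option (Option ρ)) ℂ) = C κ := AlgHom.commutes _ _
    have e2 : (ev1 (X none) : MvPolynomial (Option (Option ρ)) ℂ) = X none := by unfold ev1; rw [aeval_X]; rfl
    have e3 : (ev1 (X (some (some none))) : MvPolynomial (Option (Option ρ)) ℂ) = X (some none) := by
      unfold ev1; rw [aeval_X]; rfl
    rw [e1, e2, e3]
  have hle : I0 ≤ I.comap (rename some : MvPolynomial (Option ρ) ℂ →ₐ[ℂ] _) := by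
    rw [hI0, Ideal.span_le]
    rintro _ ⟨o, rfl⟩
    rcases o with _ | r
    · change rename some (ewU ρ (pderiv none P)) ∈ I
      rw [← hw]
      exact Ideal.subset_span ⟨none, rfl⟩
    · change rename some (ewU ρ (pderiv (some (some r)) P)) ∈ I
      rw [← hz]
      exact Ideal.subset_span ⟨some (some r), rfl⟩
  have hpow : (X none * c0) ^ (q - 2) - 1 ∈ I0 := by
    have h1 := sub_dvd_pow_sub_pow (X none * c0) (1 : MvPolynomial (Option ρ) ℂ) (q - 2)
    rw [one_pow] at h1
    exact Ideal.mem_of_dvd _ h1 hc0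
  have hkk : (C κ⁻¹ * C κ : MvPolynomial (Option (Option ρ)) ℂ) = 1 := by
    rw [← C_mul, inv_mul_cancel₀ hκ0, C_1]
  have hkk' : (C κ * C κ⁻¹ : MvPolynomial (Option ρ) ℂ) = 1 := by
    rw [← C_mul, mul_inv_cancel₀ hκ0, C_1]
  let φm : MvPolynomial (Option (Option ρ)) ℂ →ₐ[ℂ] MvPolynomial (Option ρ) ℂ :=
    aeval fun o => o.elim (-(C κ⁻¹ * (Pb * c0 ^ (q - 2)))) X
  have hφn : φm (X none) = -(C κ⁻¹ * (Pb * c0 ^ (q - 2))) := by
    change aeval _ _ = _
    rw [aeval_X]; rfl
  have hφs : ∀ i, φm (X (some i)) = X i := by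
    intro i
    change aeval _ _ = _
    rw [aeval_X]; rfl
  have hφr : ∀ χ : MvPolynomial (Option ρ) ℂ, φm (rename some χ) = χ := by
    intro χ
    have h : φm.comp (rename some) = AlgHom.id ℂ (MvPolynomial (Option ρ) ℂ) := by
      apply MvPolynomial.algHom_ext
      intro i
      rw [AlgHom.comp_apply, rename_X, hφs, AlgHom.id_apply]
    exact AlgHom.congr_fun h χ
  obtain ⟨e⟩ := cnt_retract φm (rename some) (fun j => by rw [rename_X, hφs]) I (by
    intro i
    rcases i with _ | i
    · have h1 : critOne (phiU0 ρ q t P) (some none) ∈ I := Ideal.subset_span ⟨some none, rfl⟩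
      rw [hb] at h1
      have h2 : rename some ((X none * c0) ^ (q - 2) - 1) ∈ I := hle hpow
      have h3 := Ideal.sub_mem _ (Ideal.mul_mem_left _ (C κ⁻¹ * rename some c0 ^ (q - 2)) h1)
        (Ideal.mul_mem_left _ (X none) h2)
      convert h3 using 1
      rw [hφn, map_sub, map_neg, map_mul, map_mul, map_pow, map_pow, map_mul, rename_X, rename_C, map_one, mul_pow]
      linear_combination (-(X none * X (some none) ^ (q - 2) * rename some c0 ^ (q - 2)) :
        MvPolynomial (Option (Option ρ)) ℂ) * hkk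
    · rw [hφs, rename_X, sub_self]
      exact Ideal.zero_mem _)
  have hmap : I.map φm = I0 := by
    apply le_antisymm
    · rw [hI, Ideal.map_span, Ideal.span_le]
      rintro _ ⟨_, ⟨o, rfl⟩, rfl⟩
      rcases o with _ | _ | r
      · change φm (critOne (phiU0 ρ q t P) none) ∈ I0
        rw [hw, hφr]
        exact Ideal.subset_span ⟨none, rfl⟩
      · change φm (critOne (phiU0 ρ q t P) (some none)) ∈ I0
        have hC : φm (C κ) = C κ := AlgHom.commutes _ _
        rw [hb, map_add, map_mul, map_mul, map_pow, hφn, hφs, hφr, hC]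
        have h3 := Ideal.mul_mem_left _ (-Pb) hpow
        convert h3 using 1
        rw [mul_pow]
        linear_combination (-(Pb * c0 ^ (q - 2) * X none ^ (q - 2)) : MvPolynomial (Option ρ) ℂ) * hkk'
      · change φm (critOne (phiU0 ρ q t P) (some (some r))) ∈ I0
        rw [hz, hφr]
        exact Ideal.subset_span ⟨some r, rfl⟩
    · intro x hx
      have h0 : rename some x ∈ I := hle hx
      have h1 := Ideal.mem_map_of_mem φm h0
      rwa [hφr] at h1
  rw [hmap] at e
  exact ⟨e⟩

/-- the `U0` states -/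
theorem u0_state {q N : ℕ} (hq3 : 3 ≤ q)
    {P : MvPolynomial (Option (Option ρ)) ℂ} (hP : U0P ρ q N P) {t : ℂ} (ht : t ≠ 0) :
    St (Option ρ) q N (phiU0 ρ q t P) := by
  obtain ⟨e⟩ := u0_quot hq3 hP ht
  have hfin := hP.fin
  have hlen := hP.len
  change Module.Finite ℂ (MvPolynomial (Option ρ) ℂ ⧸ Ideal.span (Set.range fun o : Option ρ =>
        ewU ρ (pderiv (o.elim (none : Option (Option ρ)) fun r => some (some r)) P))) at hfin
  change Module.finrank ℂ (MvPolynomial (Option ρ) ℂ ⧸ Ideal.span (Set.range fun o : Option ρ =>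
        ewU ρ (pderiv (o.elim (none : Option (Option ρ)) fun r => some (some r)) P))) = N at hlen
  have hvb : ∀ p : Option (Option (Option ρ)) → ℂ, p none = 0 →
      eval p (pderiv (some (some none)) (phiU0 ρ q t P)) =
        eval (fun i => p (some i)) (pderiv (some none) P) := by
    intro p hp
    obtain ⟨κ, hκ⟩ : ∃ κ : ℂ, κ = t * ((q - 1 : ℕ) : ℂ) := ⟨_, rfl⟩
    rw [pd_U0_b hq3, ← hκ, map_add, map_mul, map_mul, eval_X, hp, zero_mul, mul_zero, zero_add, eval_rename]
    rfl
  refine ⟨?_, ?_, ?_, ?_, ?_⟩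
  · unfold phiU0
    refine wh_add (wh_C_mul t ?_) (wh_homog hP.hom)
    have h1 := wh_mul (wh_X (vw (Option ρ)) none) (wh_pow (wh_X (vw (Option ρ)) (some (some none))) (q - 1))
    have h2 : vw (Option ρ) none + vw (Option ρ) (some (some none)) * (q - 1) = q + 1 := by
      change 2 + 1 * (q - 1) = q + 1
      omega
    rwa [h2] at h1
  · intro p hp hpw hx
    have h1 := hP.nsw (fun i => p (some i)) hpw (by
      intro v
      rcases v with _ | r
      · have h2 := hx none
        rwa [hvb p hp] at h2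
      · have h2 := hx (some r)
        rwa [pd_U0_z, eval_rename] at h2)
    funext o
    rcases o with _ | o
    · exact hp
    · exact congrFun h1 o
  · intro p hp hx
    have h1 := hP.ns (fun i => p (some i)) (by
      intro v
      rcases v with _ | _ | r
      · have h2 := hx none
        rwa [pd_U0_w, eval_rename] at h2
      · have h2 := hx (some none)
        rwa [hvb p hp] at h2
      · have h2 := hx (some (some r))
        rwa [pd_U0_z, eval_rename] at h2)
    funext o
    rcases o with _ | o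
    · exact hp
    · exact congrFun h1 o
  · exact Module.Finite.equiv e.symm.toLinearEquiv
  · unfold Enum
    rw [e.toLinearEquiv.finrank_eq]
    exact hlen

end

end EY
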