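import Pool.Agent.helper50.EY.ClassC

set_option autoImplicit false
set_option linter.unusedSectionVars false
set_option linter.unusedSimpArgs false

/-!
# EY-ClassD: the theorem on class C forms
-/

namespace EY

open MvPolynomial

noncomputable section

variable {τ : Type} [Fintype τ] [DecidableEq τ]

/-- the point with coordinates `s, w, x` -/
def pv (s w : ℂ) (x : τ → ℂ) : Option (Option τ) → ℂ := fun o => o.elim s fun o' => o'.elim w x

/-- `|x|²/2` -/
def hq (x : τ → ℂ) : ℂ := (∑ i, x i ^ 2) / 2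

theorem eval_qc (p : Option τ → ℂ) : eval p (qc τ) = p none + hq fun i => p (some i) := by
  unfold qc hq
  simp only [map_add, eval_X, map_mul, eval_C, map_sum, map_pow]
  ring

theorem eval_subN_qc (p : Option τ → ℂ) (ψ : MvPolynomial (Option (Option τ)) ℂ) :
    eval p (subN (qc τ) ψ) = eval (pv (p none + hq fun i => p (some i)) (p none) fun i => p (some i)) ψ := by
  have h1 := eval_subN (qc τ) (fun o : Option (Option τ) => o.elim (p none + hq fun i => p (some i)) p)
    (by rw [show (fun t : Option τ => (fun o : Option (Option τ) =>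
          o.elim (p none + hq fun i => p (some i)) p) (some t)) = p from rfl, eval_qc]; rfl) ψ
  rw [show (fun t : Option τ => (fun o : Option (Option τ) =>
          o.elim (p none + hq fun i => p (some i)) p) (some t)) = p from rfl] at h1
  rw [h1]
  congr 1
  congr 1
  funext o
  rcases o with _ | _ | o <;> rfl

theorem eval_ev1 (p : Option τ → ℂ) (ψ : MvPolynomial (Option (Option τ)) ℂ) :
    eval p (ev1 ψ) = eval (pv (p none) 1 fun i => p (some i)) ψ := by
  have h : (eval p).comp (ev1 : MvPolynomial (Option (Option τ)) ℂ →ₐ[ℂ] _).toRingHom =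
      eval (pv (p none) 1 fun i => p (some i)) := by
    apply MvPolynomial.ringHom_ext
    · intro c
      simp [ev1]
    · intro o
      rcases o with _ | _ | o <;> simp [ev1, pv]
  exact RingHom.congr_fun h ψ

/-- the localization of the critical scheme at `w` is the `E`-scheme -/
theorem loc_equiv {n : ℕ} (φ : MvPolynomial (Option (Option τ)) ℂ)
    (hφ : ∀ o : Option τ, wh (vw τ) n (pderiv (some o) φ))
    (h2 : ∀ x : τ → ℂ, ¬ ∀ o, eval (pv (hq x) 1 x) (pderiv (some o) φ) = 0)
    (J' : Ideal (MvPolynomial (Option τ) ℂ)) (hJ' : J' = Ideal.span (Set.range (critOne φ)))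
    {A' : Type} [CommRing A'] [Algebra ℂ A'] (π : MvPolynomial (Option τ) ℂ →ₐ[ℂ] A') (hπs : Function.Surjective π)
    (hπJ : ∀ o, π (critSys φ o) = 0) (r : A') (hπb : π (X none) * r = 1)
    (hπF : ∀ F0 : MvPolynomial (Option τ) ℂ →ₐ[ℂ] (MvPolynomial (Option τ) ℂ ⧸ J'), (∀ o, F0 (critSys φ o) = 0) →
      IsUnit (F0 (X none)) → ∃ F' : A' →ₐ[ℂ] (MvPolynomial (Option τ) ℂ ⧸ J'), ∀ x, F' (π x) = F0 x) :
    Nonempty (A' ≃ₐ[ℂ] (MvPolynomial (Option τ) ℂ ⧸ J')) := by
  -- the unit s in B
  set s : MvPolynomial (Option τ) ℂ := X none - C (1 / 2) * ∑ i : τ, X (some i) ^ 2 with hs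
  have hsu : IsUnit (Ideal.Quotient.mk J' s) := by
    apply isUnit_of_no_zero
    intro p hp hps
    have h3 : p none = hq fun i => p (some i) := by
      rw [hs] at hps
      simp only [map_sub, eval_X, map_mul, eval_C, map_sum, map_pow] at hps
      unfold hq
      rw [sub_eq_zero] at hps
      rw [hps]; ring
    apply h2 fun i => p (some i)
    intro o
    have h4 := hp (critOne φ o) (by rw [hJ']; exact Ideal.subset_span ⟨o, rfl⟩)
    unfold critOne at h4
    rw [eval_ev1, h3] at h4
    exact h4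
  obtain ⟨t, ht⟩ := hsu.exists_right_inv
  -- the map R → B
  set F0 : MvPolynomial (Option τ) ℂ →ₐ[ℂ] (MvPolynomial (Option τ) ℂ ⧸ J') :=
    aeval (fun o : Option τ => o.elim t fun i => t * Ideal.Quotient.mk J' (X (some i))) with hF0
  have hF0w : F0 (X none) = t := by rw [hF0, aeval_X]; rfl
  have hF0x : ∀ i, F0 (X (some i)) = t * Ideal.Quotient.mk J' (X (some i)) := by
    intro i; rw [hF0, aeval_X]; rfl
  have hmkC : ∀ c : ℂ, Ideal.Quotient.mk J' (C c) = algebraMap ℂ (MvPolynomial (Option τ) ℂ ⧸ J') c :=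
    fun c => rfl
  have hF0q : F0 (qc τ) = t ^ 2 * Ideal.Quotient.mk J' (X none) := by
    have h3 : F0 (qc τ) = t + algebraMap ℂ (MvPolynomial (Option τ) ℂ ⧸ J') (1 / 2) *
        ∑ i : τ, (t * Ideal.Quotient.mk J' (X (some i))) ^ 2 := by
      unfold qc
      rw [map_add, map_mul, map_sum, hF0w]
      congr 2
      · exact F0.commutes _
      · exact Finset.sum_congr rfl fun i _ => by rw [map_pow, hF0x]
    have h4 : Ideal.Quotient.mk J' (X none) = Ideal.Quotient.mk J' s +
        algebraMap ℂ (MvPolynomial (Option τ) ℂ ⧸ J') (1 / 2) * ∑ i : τ, Ideal.Quotient.mk J' (X (some i)) ^ 2 := by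
      rw [hs, map_sub, map_mul, map_sum, hmkC]
      simp only [map_pow]
      ring
    rw [h3, h4]
    simp only [mul_pow, ← Finset.mul_sum]
    linear_combination (-t) * ht
  have hF0c : ∀ ψ : MvPolynomial (Option (Option τ)) ℂ, wh (vw τ) n ψ →
      F0 (subN (qc τ) ψ) = t ^ n * Ideal.Quotient.mk J' (ev1 ψ) := by
    intro ψ hψ
    have h3 : F0 (subN (qc τ) ψ) = aeval (fun o => F0 (subN (qc τ) (X o))) ψ := by
      have h5 : F0.comp (subN (qc τ)) = aeval (fun o => F0 (subN (qc τ) (X o))) := by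
        apply MvPolynomial.algHom_ext
        intro o
        rw [aeval_X]; rfl
      exact AlgHom.congr_fun h5 ψ
    have h4 : Ideal.Quotient.mk J' (ev1 ψ) = aeval (fun o => Ideal.Quotient.mk J' (ev1 (X o))) ψ := by
      have h5 : (Ideal.Quotient.mkₐ ℂ J').comp ev1 = aeval (fun o => Ideal.Quotient.mk J' (ev1 (X o))) := by
        apply MvPolynomial.algHom_ext
        intro o
        rw [aeval_X]; rfl
      exact AlgHom.congr_fun h5 ψ
    rw [h3, h4, ← aeval_wh hψ]
    congr 2
    funext o
    rcases o with _ | _ | i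
    · rw [subN_none, hF0q]
      simp [vw, ev1]
    · rw [subN_some, hF0w]
      simp [vw, ev1]
    · rw [subN_some, hF0x]
      simp [vw, ev1]
  have hst' : Ideal.Quotient.mk J' s * t = 1 := ht
  obtain ⟨F', hF'π⟩ := hπF F0 (by
    intro o
    have h4 := hF0c _ (hφ o)
    have h5 : Ideal.Quotient.mk J' (ev1 (pderiv (some o) φ)) = 0 :=
      Ideal.Quotient.eq_zero_iff_mem.mpr (by rw [hJ']; exact Ideal.subset_span ⟨o, rfl⟩)
    rw [h5, mul_zero] at h4
    exact h4) (by
    rw [hF0w]
    exact IsUnit.of_mul_eq_one (Ideal.Quotient.mk J' s) (by rw [mul_comm]; exact hst'))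
  -- the map G
  set G0 : MvPolynomial (Option τ) ℂ →ₐ[ℂ] A' :=
    aeval (fun o : Option τ => o.elim (r ^ 2 * π (qc τ)) fun i => r * π (X (some i))) with hG0
  have hG0n : G0 (X none) = r ^ 2 * π (qc τ) := by rw [hG0, aeval_X]; rfl
  have hG0x : ∀ i, G0 (X (some i)) = r * π (X (some i)) := by
    intro i; rw [hG0, aeval_X]; rfl
  have hG0c : ∀ ψ : MvPolynomial (Option (Option τ)) ℂ, wh (vw τ) n ψ →
      G0 (ev1 ψ) = r ^ n * π (subN (qc τ) ψ) := by
    intro ψ hψ
    have h3 : G0 (ev1 ψ) = aeval (fun o => G0 (ev1 (X o))) ψ := by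
      have h5 : G0.comp ev1 = aeval (fun o => G0 (ev1 (X o))) := by
        apply MvPolynomial.algHom_ext
        intro o
        rw [aeval_X]; rfl
      exact AlgHom.congr_fun h5 ψ
    have h4 : π (subN (qc τ) ψ) = aeval (fun o => π (subN (qc τ) (X o))) ψ := by
      have h5 : π.comp (subN (qc τ)) = aeval (fun o => π (subN (qc τ) (X o))) := by
        apply MvPolynomial.algHom_ext
        intro o
        rw [aeval_X]; rfl
      exact AlgHom.congr_fun h5 ψ
    rw [h3, h4, ← aeval_wh hψ]
    congr 2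
    funext o
    rcases o with _ | _ | i
    · have : ev1 (X none : MvPolynomial (Option (Option τ)) ℂ) = X none := by simp [ev1]
      rw [this, subN_none, hG0n]
      simp [vw]
    · have : ev1 (X (some none) : MvPolynomial (Option (Option τ)) ℂ) = 1 := by simp [ev1]
      rw [this, subN_some, map_one]
      simp only [vw, Option.elim, pow_one]
      rw [mul_comm]; exact hπb.symm
    · have : ev1 (X (some (some i)) : MvPolynomial (Option (Option τ)) ℂ) = X (some i) := by simp [ev1]
      rw [this, subN_some, hG0x]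
      simp [vw]
  have hG0J : ∀ a ∈ J', G0 a = 0 := by
    intro a ha
    have h3 : J' ≤ RingHom.ker G0 := by
      rw [hJ', Ideal.span_le]
      rintro _ ⟨o, rfl⟩
      have h4 := hG0c _ (hφ o)
      have h5 : π (subN (qc τ) (pderiv (some o) φ)) = 0 := hπJ o
      rw [h5, mul_zero] at h4
      exact RingHom.mem_ker.mpr h4
    exact RingHom.mem_ker.mp (h3 ha)
  set G : (MvPolynomial (Option τ) ℂ ⧸ J') →ₐ[ℂ] A' := Ideal.Quotient.liftₐ J' G0 hG0J with hG
  have hGmk : ∀ x : MvPolynomial (Option τ) ℂ, G (Ideal.Quotient.mk J' x) = G0 x := fun x => rfl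
  have hF't : F' r = Ideal.Quotient.mk J' s := by
    have h3 : t * F' r = 1 := by
      rw [← hF0w, ← hF'π, ← map_mul, hπb, map_one]
    calc F' r = (Ideal.Quotient.mk J' s * t) * F' r := by rw [hst', one_mul]
      _ = Ideal.Quotient.mk J' s * (t * F' r) := by ring
      _ = Ideal.Quotient.mk J' s := by rw [h3, mul_one]
  have hGs : G (Ideal.Quotient.mk J' s) = r := by
    rw [hGmk, hs, map_sub, map_mul, map_sum, hG0n]
    simp only [map_pow, hG0x, mul_pow]
    rw [← Finset.mul_sum]
    have h3 : G0 (C (1 / 2)) = algebraMap ℂ A' (1 / 2) := G0.commutes _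
    have h4 : π (qc τ) = π (X none) + algebraMap ℂ A' (1 / 2) * ∑ i : τ, π (X (some i)) ^ 2 := by
      unfold qc
      rw [map_add, map_mul, map_sum]
      congr 2
      · exact π.commutes _
      · exact Finset.sum_congr rfl fun i _ => by rw [map_pow]
    rw [h3, h4]
    linear_combination r * hπb
  have hGt : G t = π (X none) := by
    have h3 : r * G t = 1 := by
      rw [← hGs, ← map_mul, hst', map_one]
    calc G t = (π (X none) * r) * G t := by rw [hπb, one_mul]
      _ = π (X none) * (r * G t) := by ring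
      _ = π (X none) := by rw [h3, mul_one]
  have hFG : F'.comp G = AlgHom.id ℂ (MvPolynomial (Option τ) ℂ ⧸ J') := by
    apply Ideal.Quotient.algHom_ext
    apply MvPolynomial.algHom_ext
    intro o
    change F' (G0 (X o)) = Ideal.Quotient.mk J' (X o)
    rcases o with _ | i
    · rw [hG0n, map_mul, map_pow, hF't, hF'π, hF0q]
      linear_combination (Ideal.Quotient.mk J' (X none)) * (Ideal.Quotient.mk J' s * t + 1) * hst'
    · rw [hG0x, map_mul, hF't, hF'π, hF0x]
      linear_combination (Ideal.Quotient.mk J' (X (some i))) * hst'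
  have hGF : G.comp F' = AlgHom.id ℂ A' := by
    have h3 : (G.comp F').comp π = π := by
      apply MvPolynomial.algHom_ext
      intro o
      change G (F' (π (X o))) = π (X o)
      rw [hF'π]
      rcases o with _ | i
      · rw [hF0w, hGt]
      · rw [hF0x, map_mul, hGt, hGmk, hG0x]
        linear_combination (π (X (some i))) * hπb
    ext x
    obtain ⟨y, rfl⟩ := hπs x
    exact AlgHom.congr_fun h3 y
  exact ⟨AlgEquiv.ofAlgHom F' G hFG hGF⟩

/-- `A/(1-e)` is the localization at `b`, in an abstract form -/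
theorem split_abs {A B : Type} [CommRing A] [Algebra ℂ A] [Module.Finite ℂ A] [CommRing B] [Algebra ℂ B] (b : A)
    (hB : ∀ (A' : Type) [CommRing A'] [Algebra ℂ A'] (π : A →ₐ[ℂ] A'), Function.Surjective π →
      ∀ r : A', π b * r = 1 → (∀ F : A →ₐ[ℂ] B, IsUnit (F b) → ∃ F' : A' →ₐ[ℂ] B, ∀ x, F' (π x) = F x) →
      Nonempty (A' ≃ₐ[ℂ] B)) :
    ∃ (m : ℕ) (c : A), 0 < m ∧ b ^ m = b ^ (m + 1) * c ∧ Module.Finite ℂ B ∧
      Module.finrank ℂ A = Module.finrank ℂ (A ⧸ Ideal.span {b ^ m}) + Module.finrank ℂ B := by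
  obtain ⟨m, c, hm, hmc⟩ := exists_idem b
  obtain ⟨e, he⟩ : ∃ e, e = b ^ m * c := ⟨_, rfl⟩
  have hee : e * e = e := by
    rw [he]
    linear_combination c * hmc
  have hbe : b ^ m * (1 - e) = 0 := by
    rw [he]
    linear_combination (-1 : A) * hmc
  have h3 := finrank_idem e hee
  have h4 : b * (b ^ (m - 1) * c) = e := by
    rw [he, ← mul_assoc, ← pow_succ', Nat.sub_add_cancel hm]
  have h5 : Ideal.Quotient.mk (Ideal.span {1 - e}) e = 1 := by
    have h6 : Ideal.Quotient.mk (Ideal.span {1 - e}) (1 - e) = 0 :=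
      Ideal.Quotient.eq_zero_iff_mem.mpr (Ideal.subset_span rfl)
    rw [map_sub, map_one, sub_eq_zero] at h6
    exact h6.symm
  obtain ⟨eqv⟩ := hB (A ⧸ Ideal.span {1 - e}) (Ideal.Quotient.mkₐ ℂ _) (Ideal.Quotient.mkₐ_surjective ℂ _)
    (Ideal.Quotient.mk _ (b ^ (m - 1) * c)) (by
      change Ideal.Quotient.mk _ b * Ideal.Quotient.mk _ (b ^ (m - 1) * c) = 1
      rw [← map_mul, h4, h5]) (by
      intro F hu
      have hFe : F (1 - e) = 0 := by
        have h4 : F b ^ m * F (1 - e) = 0 := by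
          rw [← map_pow, ← map_mul, hbe, map_zero]
        exact (hu.pow m).mul_right_eq_zero.mp h4
      exact ⟨Ideal.Quotient.liftₐ (Ideal.span {1 - e}) F (by
        intro a ha
        obtain ⟨d, rfl⟩ := Ideal.mem_span_singleton'.mp ha
        rw [map_mul, hFe, mul_zero]), fun x => rfl⟩)
  refine ⟨m, b ^ (m - 1) * c, hm, ?_, Module.Finite.equiv eqv.toLinearEquiv, ?_⟩
  · have h6 : b ^ m = b ^ m * e := by rw [he]; exact hmc.symm
    rw [pow_succ, mul_assoc, h4]
    exact h6
  · have h6 : Ideal.span {e} = Ideal.span {b ^ m} := by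
      apply le_antisymm
      · rw [Ideal.span_le, Set.singleton_subset_iff]
        exact Ideal.mem_span_singleton.mpr ⟨c, he⟩
      · rw [Ideal.span_le, Set.singleton_subset_iff]
        exact Ideal.mem_span_singleton.mpr ⟨b ^ m, by rw [he, mul_comm]; exact hmc.symm⟩
    rw [h3, h6, eqv.toLinearEquiv.finrank_eq]

/-- **the part `w ≠ 0` of the critical scheme is the `E`-scheme** -/
theorem crit_split {n : ℕ} (φ : MvPolynomial (Option (Option τ)) ℂ)
    (hφ : ∀ o : Option τ, wh (vw τ) n (pderiv (some o) φ))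
    (hA : Module.Finite ℂ (MvPolynomial (Option τ) ℂ ⧸ Ideal.span (Set.range (critSys φ))))
    (h1 : ∀ x : τ → ℂ, (∀ i, eval (pv (hq x) 0 x) (pderiv (some (some i)) φ) = 0) → x = 0)
    (h2 : ∀ x : τ → ℂ, ¬ ∀ o, eval (pv (hq x) 1 x) (pderiv (some o) φ) = 0) :
    Module.Finite ℂ (MvPolynomial (Option τ) ℂ ⧸ Ideal.span (Set.range (critOne φ))) ∧
    Module.finrank ℂ (MvPolynomial (Option τ) ℂ ⧸ Ideal.span (Set.range (critSys φ))) =
      mulAt (Ideal.span (Set.range (critSys φ))) 0 + Enum φ := by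
  obtain ⟨J, hJ⟩ : ∃ J, J = Ideal.span (Set.range (critSys φ)) := ⟨_, rfl⟩
  rw [← hJ] at hA ⊢
  obtain ⟨m, c, hm, hmc, hfin, hrank⟩ := split_abs (A := MvPolynomial (Option τ) ℂ ⧸ J)
    (B := MvPolynomial (Option τ) ℂ ⧸ Ideal.span (Set.range (critOne φ))) (Ideal.Quotient.mk J (X none)) (by
    intro A' _ _ π hπs r hr hF
    refine loc_equiv φ hφ h2 _ rfl (π.comp (Ideal.Quotient.mkₐ ℂ J))
      (hπs.comp (Ideal.Quotient.mkₐ_surjective ℂ _)) ?_ r hr ?_
    · intro o
      have h6 : Ideal.Quotient.mk J (critSys φ o) = 0 :=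
        Ideal.Quotient.eq_zero_iff_mem.mpr (by rw [hJ]; exact Ideal.subset_span ⟨o, rfl⟩)
      change π (Ideal.Quotient.mk J (critSys φ o)) = 0
      rw [h6, map_zero]
    · intro F0 hF0 hu
      obtain ⟨F', hF'⟩ := hF (Ideal.Quotient.liftₐ J F0 (by
          intro a ha
          have h4 : J ≤ RingHom.ker F0 := by
            rw [hJ, Ideal.span_le]
            rintro _ ⟨o, rfl⟩
            exact RingHom.mem_ker.mpr (hF0 o)
          exact RingHom.mem_ker.mp (h4 ha))) hu
      exact ⟨F', fun x => hF' (Ideal.Quotient.mk J x)⟩)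
  refine ⟨hfin, ?_⟩
  rw [hrank]
  change _ + Enum φ = _
  congr 1
  -- the local part
  have h6 : mulAt J 0 = Module.finrank ℂ (MvPolynomial (Option τ) ℂ ⧸ (J ⊔ Ideal.span {(X none) ^ m})) := by
    apply mulAt_eq_stable
    · simp
    · intro p hp hp0
      rw [eval_X] at hp0
      have h7 : (fun i => p (some i)) = (0 : τ → ℂ) := by
        apply h1
        intro i
        have h8 := hp (critSys φ (some i)) (by rw [hJ]; exact Ideal.subset_span ⟨some i, rfl⟩)
        unfold critSys at h8
        rw [eval_subN_qc, hp0, zero_add] at h8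
        exact h8
      funext o
      rcases o with _ | i
      · exact hp0
      · exact congrFun h7 i
    · obtain ⟨y, rfl⟩ := Ideal.Quotient.mk_surjective c
      have h8 : (X none : MvPolynomial (Option τ) ℂ) ^ m - X none ^ (m + 1) * y ∈ J := by
        rw [← Ideal.Quotient.eq_zero_iff_mem, map_sub, map_mul, map_pow, map_pow, ← hmc, sub_self]
      have h9 : (X none : MvPolynomial (Option τ) ℂ) ^ m =
          (X none ^ m - X none ^ (m + 1) * y) + y * X none ^ (m + 1) := by ring
      rw [h9]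
      exact Ideal.add_mem _ (Ideal.mem_sup_left h8)
        (Ideal.mem_sup_right (Ideal.mul_mem_left _ _ (Ideal.subset_span rfl)))
  have h5 : Ideal.span {Ideal.Quotient.mk J (X none) ^ m} =
      (Ideal.span {(X none : MvPolynomial (Option τ) ℂ) ^ m}).map (Ideal.Quotient.mk J) := by
    rw [Ideal.map_span, Set.image_singleton, map_pow]
  rw [h6, h5]
  exact (DoubleQuot.quotQuotEquivQuotSupₐ ℂ J (Ideal.span {(X none) ^ m})).toLinearEquiv.finrank_eq

end

end EY
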