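import Pool.Agent.helper40.EY.Glob
import Pool.Agent.helper40.EY.WBez

set_option autoImplicit false
set_option linter.unusedSectionVars false

/-!
# EY-Split: the part of a finite scheme where a function is invertible

`finrank_split`: `A` finite dimensional, `b ∈ A`, `B` an algebra with maps `A → B`, `B ← ` ... such that `B` is the
localization of `A` at `b`; then `dim A = dim A/(b^n) + dim B`.
-/

namespace EY

open MvPolynomial

noncomputable section

/-- the idempotent of `b` -/
theorem exists_idem {A : Type*} [CommRing A] [Algebra ℂ A] [Module.Finite ℂ A] (b : A) :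
    ∃ (n : ℕ) (c : A), 0 < n ∧ b ^ n * (b ^ n * c) = b ^ n := by
  have hA : IsArtinianRing A := IsArtinianRing.of_finite ℂ A
  obtain ⟨n, hn⟩ := IsArtinian.monotone_stabilizes (R := A) (M := A)
    ⟨fun n => OrderDual.toDual (Ideal.span {b ^ n}), by
      intro i j hij
      change Ideal.span {b ^ j} ≤ Ideal.span {b ^ i}
      rw [Ideal.span_le, Set.singleton_subset_iff]
      exact Ideal.mem_span_singleton.mpr (pow_dvd_pow b hij)⟩
  have h1 : ∀ m, n ≤ m → Ideal.span {b ^ n} = Ideal.span {b ^ m} := fun m hm => by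
    have := hn m hm
    exact congrArg OrderDual.ofDual this
  have h2 : Ideal.span {b ^ (n + 1)} = Ideal.span {b ^ (2 * (n + 1))} :=
    (h1 (n + 1) (by omega)).symm.trans (h1 (2 * (n + 1)) (by omega))
  have h3 : b ^ (n + 1) ∈ Ideal.span {b ^ (2 * (n + 1))} := by
    rw [← h2]; exact Ideal.subset_span rfl
  obtain ⟨c, hc⟩ := Ideal.mem_span_singleton'.mp h3
  refine ⟨n + 1, c, Nat.succ_pos n, ?_⟩
  rw [← hc]
  have : c * b ^ (2 * (n + 1)) = b ^ (n + 1) := hc
  calc c * b ^ (2 * (n + 1)) * (c * b ^ (2 * (n + 1)) * c) = b ^ (n + 1) * (b ^ (n + 1) * c) := by rw [this]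
    _ = c * b ^ (2 * (n + 1)) := by rw [two_mul, pow_add]; ring

/-- `dim A = dim A/(e) + dim A/(1-e)` -/
theorem finrank_idem {A : Type*} [CommRing A] [Algebra ℂ A] [Module.Finite ℂ A] (e : A) (he : e * e = e) :
    Module.finrank ℂ A = Module.finrank ℂ (A ⧸ Ideal.span {e}) + Module.finrank ℂ (A ⧸ Ideal.span {1 - e}) := by
  set φ : A →ₗ[ℂ] A := LinearMap.mulLeft ℂ e with hφ
  have h1 : LinearMap.ker φ = (Ideal.span {1 - e}).restrictScalars ℂ := by
    ext x
    rw [LinearMap.mem_ker, Submodule.restrictScalars_mem, Ideal.mem_span_singleton']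
    constructor
    · intro hx
      refine ⟨x, ?_⟩
      have h2 : e * x = 0 := hx
      linear_combination (-1 : A) * h2
    · rintro ⟨a, rfl⟩
      change e * (a * (1 - e)) = 0
      linear_combination (-a) * he
  have h2 : LinearMap.range φ = (Ideal.span {e}).restrictScalars ℂ := by
    ext x
    rw [LinearMap.mem_range, Submodule.restrictScalars_mem, Ideal.mem_span_singleton']
    constructor
    · rintro ⟨a, rfl⟩
      exact ⟨a, mul_comm _ _⟩
    · rintro ⟨a, rfl⟩
      exact ⟨a, mul_comm _ _⟩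
  have h3 := LinearMap.finrank_range_add_finrank_ker φ
  have h4 : ∀ I : Ideal A, Module.finrank ℂ (A ⧸ I) + Module.finrank ℂ (I.restrictScalars ℂ) =
      Module.finrank ℂ A := by
    intro I
    have h5 := Submodule.finrank_quotient_add_finrank (I.restrictScalars ℂ)
    rw [← (Submodule.Quotient.restrictScalarsEquiv ℂ I).finrank_eq]
    exact h5
  have h5 := h4 (Ideal.span {e})
  have h6 := h4 (Ideal.span {1 - e})
  rw [h1, h2] at h3
  omega

/-- the local ring at the only zero of `I` with `b = 0` -/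
theorem mulAt_eq_stable {σ : Type*} [Finite σ] (I : Ideal (MvPolynomial σ ℂ)) (p : σ → ℂ) (b : MvPolynomial σ ℂ)
    (hb : eval p b = 0)
    (hq : ∀ q : σ → ℂ, (∀ f ∈ I, eval q f = 0) → eval q b = 0 → q = p) (n : ℕ)
    (hn : b ^ n ∈ I ⊔ Ideal.span {b ^ (n + 1)}) :
    mulAt I p = Module.finrank ℂ (MvPolynomial σ ℂ ⧸ (I ⊔ Ideal.span {b ^ n})) := by
  suffices h : Nonempty ((MvPolynomial σ ℂ ⧸ (I ⊔ Ideal.span {b ^ n})) ≃ₐ[ℂ]
      (Localization.AtPrime (pt p) ⧸
        I.map (algebraMap (MvPolynomial σ ℂ) (Localization.AtPrime (pt p))))) by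
    obtain ⟨e⟩ := h
    exact e.toLinearEquiv.finrank_eq.symm
  apply exists_algEquiv
  · intro s hs
    apply isUnit_of_zero_unique _ p
    · intro q hq'
      apply hq q fun f hf => hq' f (Ideal.mem_sup_left hf)
      have h1 := hq' (b ^ n) (Ideal.mem_sup_right (Ideal.subset_span rfl))
      rw [map_pow] at h1
      exact eq_zero_of_pow_eq_zero h1
    · exact fun h => hs (mem_pt.mpr h)
  · exact le_sup_left
  · intro x hx
    obtain ⟨i, hi, t, ht, rfl⟩ := Submodule.mem_sup.mp hx
    obtain ⟨c, rfl⟩ := Ideal.mem_span_singleton'.mp ht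
    obtain ⟨j, hj, r, hr, hjr⟩ := Submodule.mem_sup.mp hn
    obtain ⟨d, rfl⟩ := Ideal.mem_span_singleton'.mp hr
    refine ⟨1 - d * b, ?_, ?_⟩
    · intro hmem
      have h1 := mem_pt.mp hmem
      rw [map_sub, map_one, map_mul, hb, mul_zero, sub_zero] at h1
      exact one_ne_zero h1
    · rw [mul_add]
      refine I.add_mem (I.mul_mem_left _ hi) ?_
      have h2 : (1 - d * b) * (c * b ^ n) = c * j := by
        have h3 : j = b ^ n - d * b ^ (n + 1) := by rw [← hjr]; ring
        rw [h3]; ring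
      rw [h2]
      exact I.mul_mem_left _ hj

/-- a polynomial without zeros on the scheme is a unit -/
theorem isUnit_of_no_zero {σ : Type*} [Finite σ] (J : Ideal (MvPolynomial σ ℂ)) (s : MvPolynomial σ ℂ)
    (hs : ∀ q : σ → ℂ, (∀ f ∈ J, eval q f = 0) → eval q s ≠ 0) : IsUnit (Ideal.Quotient.mk J s) := by
  have htop : J ⊔ Ideal.span {s} = ⊤ := by
    by_contra hne
    obtain ⟨m, hm, hle⟩ := Ideal.exists_le_maximal _ hne
    obtain ⟨x, hx⟩ := isMaximal_iff_eq_vanishingIdeal_singleton.mp hm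
    have hmem : ∀ f ∈ J ⊔ Ideal.span {s}, eval x f = 0 := by
      intro f hf
      have h1 := hle hf
      rw [hx, mem_vanishingIdeal_singleton_iff] at h1
      simpa [aeval_eq_eval] using h1
    exact hs x (fun f hf => hmem f (Ideal.mem_sup_left hf))
      (hmem s (Ideal.mem_sup_right (Ideal.subset_span rfl)))
  have h1 : (1 : MvPolynomial σ ℂ) ∈ J ⊔ Ideal.span {s} := by rw [htop]; trivial
  obtain ⟨j, hj, t, ht, hjt⟩ := Submodule.mem_sup.mp h1
  obtain ⟨a, rfl⟩ := Ideal.mem_span_singleton'.mp ht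
  refine IsUnit.of_mul_eq_one (Ideal.Quotient.mk J a) ?_
  rw [← map_mul, ← map_one (Ideal.Quotient.mk J), ← hjt, map_add,
    Ideal.Quotient.eq_zero_iff_mem.mpr hj, zero_add, mul_comm]

end

end EY
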