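import Pool.Agent.helper50.EY.TRz
import Pool.Agent.helper51.EY.ZU0
import Pool.Agent.helper51.EY.ZUA

set_option autoImplicit false
set_option linter.unusedSectionVars false

/-!
# EY-Win: the windows of degrees realized by T2, T3, T4 (`N = K + 4` variables)
-/

namespace EY

open MvPolynomial

/-- T2: the window `[(q+2) q^κ, (q+3) q^κ]`, `κ = K + 1` -/
theorem win_t2 {q : ℕ} (hq3 : 3 ≤ q) (K m : ℕ) (h1 : (q + 2) * q ^ (K + 1) ≤ m) (h2 : m ≤ (q + 3) * q ^ (K + 1)) :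
    Rz q (K + 4) m := by
  have e1 : (q + 2) * q ^ (K + 1) = q ^ (K + 2) + 2 * q ^ (K + 1) := by ring
  have e2 : (q + 3) * q ^ (K + 1) = q ^ (K + 2) + 3 * q ^ (K + 1) := by ring
  rw [e1] at h1
  rw [e2] at h2
  obtain ⟨P, hP⟩ := exists_U0P hq3 K (q ^ (K + 1) + q ^ (K + 2) + 2 * q ^ (K + 1) - m) (by omega)
  have h3 := t2_rz hq3 hP (fun t ht => u0_st hq3 hP ht)
  rw [Fintype.card_fin] at h3
  have h4 : q ^ (K + 1) + q ^ (K + 2) - (q ^ (K + 1) + q ^ (K + 2) + 2 * q ^ (K + 1) - m) + 2 * q ^ (K + 1) = m := by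
    have h5 : q ^ (K + 1) ≤ q ^ (K + 2) := Nat.pow_le_pow_right (by omega) (by omega)
    omega
  rwa [h4] at h3

/-- T3 for `q = 3`: the window `[17 * 3^K, 20 * 3^K]` -/
theorem win_t3 (K m : ℕ) (h1 : 17 * 3 ^ K ≤ m) (h2 : m ≤ 20 * 3 ^ K) : Rz 3 (K + 4) m := by
  have e1 : 3 ^ (K + 1) = 3 * 3 ^ K := by ring
  have e2 : 3 ^ (K + 2) = 9 * 3 ^ K := by ring
  obtain ⟨P, hP⟩ := exists_U0P (le_refl 3) K (20 * 3 ^ K - m) (by rw [e1]; omega)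
  have h3 := t3_rz (le_refl 3) hP (fun t ht => u0_st (le_refl 3) hP ht)
  rw [Fintype.card_fin, e1, e2] at h3
  have h4 : 3 * 3 ^ K + 9 * 3 ^ K - (20 * 3 ^ K - m) + (2 * (3 * 3 ^ K) + 2 * 3 ^ K) = m := by omega
  rwa [h4] at h3

/-- T4 for `q = 4`: the window `[4.5 * 4^κ, 6.5 * 4^κ]`, `κ = K + 1` -/
theorem win_t4 (K m : ℕ) (h1 : 9 * 4 ^ (K + 1) ≤ 2 * m) (h2 : 2 * m ≤ 13 * 4 ^ (K + 1)) : Rz 4 (K + 4) m := by
  have e1 : 4 ^ (K + 1) = 4 * 4 ^ K := by ring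
  have e2 : 4 ^ (K + 2) = 16 * 4 ^ K := by ring
  rw [e1] at h1 h2
  obtain ⟨φ, hφ⟩ := u4 K (26 * 4 ^ K - m) (by rw [e1]; omega)
  have h3 := t4_rz (by norm_num) hφ
  rw [Fintype.card_fin, e1, e2] at h3
  have h4 : 4 * 4 ^ K + 16 * 4 ^ K - (26 * 4 ^ K - m) + (4 * 4 ^ K + 2 * 4 ^ K) = m := by omega
  rwa [h4] at h3

end EY
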