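import Pool.Agent.helper51.EY.ZDef
import Pool.Agent.helper35.EY.FinZ
import Pool.Agent.helper50.EY.Scale
import Pool.Agent.helper5.EY.Glue
import Pool.Agent.helper8.EY.SMulA

set_option autoImplicit false
set_option linter.unusedSectionVars false
set_option linter.unusedSimpArgs false

/-!
# EY-ZRz: the degree realized by the step `Z(ω)` over a metric state, given the two sheet lengths
-/

namespace EY

open MvPolynomial

noncomputable section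

variable {ρ : Type} [Fintype ρ] [DecidableEq ρ]

theorem RZ_eq_RZm50 (q : ℕ) (ω θ : ℂ) : RZ (Option ρ) q none ω θ 0 = RZm ρ q θ ω := by
  unfold RZ RZm
  rw [C_0, zero_mul, add_zero]

/-- the common core of T1, T2, T3, T4, with the finiteness as a hypothesis -/
theorem z_rz_of {q E₀ J₁ J₂ : ℕ} (hq : 2 ≤ q) {φ : MvPolynomial (Option (Option (Option ρ))) ℂ}
    (h : MSt (Option ρ) q E₀ φ) (ω : ℂ)
    (hfin : (∀ θ : ℂ, θ ≠ 0 →
        mulAt (affIdeal (formR φ (RZ (Option ρ) q none ω θ 0)) (gram (Option (Option ρ))) (some none)) 0 ≠ 0) →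
      {θ : ℂ | ¬ ProjFin {x | IsEig (formR φ (RZ (Option ρ) q none ω θ 0)) (gram (Option (Option ρ))) x}}.Finite)
    (hJ₁ : ∀ θ : ℂ, θ ≠ 0 → mulAt (Ideal.span (Set.range (zSys φ θ ω (zh ρ ω)))) 0 = J₁)
    (hJ₂ : ∀ θ : ℂ, θ ≠ 0 → mulAt (Ideal.span (Set.range (zSys φ θ ω (zv ρ q)))) 0 = J₂)
    (h1 : J₁ ≠ 0) (h2 : J₂ ≠ 0) :
    Rz q (Fintype.card ρ + 4)
      (q ^ (Fintype.card ρ + 1) + q ^ (Fintype.card ρ + 2) - E₀ + (J₁ + J₂)) := by
  have hC := classC (by omega) h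
  have hC0 : mulAt (affIdeal (formC φ) (gram (Option ρ)) (some none)) 0 ≠ 0 := MSt.mulAt_ne φ (by omega) h
  have hm : ∀ θ : ℂ, θ ≠ 0 →
      mulAt (affIdeal (formR φ (RZm ρ q θ ω)) (gram (Option (Option ρ))) (some none)) 0 =
        mulAt (affIdeal (formC φ) (gram (Option ρ)) (some none)) 0 + (J₁ + J₂) := by
    intro θ hθ
    rw [z_mult φ hq hθ ω hC0 (by rw [hJ₁ θ hθ]; exact h1) (by rw [hJ₂ θ hθ]; exact h2), hJ₁ θ hθ, hJ₂ θ hθ]
  obtain ⟨θ, hθ, hθ'⟩ := exists_good (hfin (by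
    intro θ hθ
    rw [RZ_eq_RZm50, hm θ hθ]
    omega))
  have hpf : ProjFin {x | IsEig (formR φ (RZ (Option ρ) q none ω θ 0)) (gram (Option (Option ρ))) x} := by
    by_contra hcon
    exact hθ' hcon
  rw [RZ_eq_RZm50] at hpf
  refine rz_of_form' (by simp) (by omega) (formR φ (RZm ρ q θ ω))
    (formR_hom (by omega) h.wh (wh_RZm hq θ ω)) hpf ?_
  rw [hm θ hθ]
  have e1 : Fintype.card (Option ρ) = Fintype.card ρ + 1 := Fintype.card_option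
  have e2 : Fintype.card ρ + 1 + 1 = Fintype.card ρ + 2 := rfl
  rw [e1, e2] at hC
  omega

/-- the common core of T2, T3, T4 -/
theorem z_rz {q E₀ J₁ J₂ : ℕ} (hq : 2 ≤ q) {φ : MvPolynomial (Option (Option (Option ρ))) ℂ}
    (h : MSt (Option ρ) q E₀ φ) (ω : ℂ)
    (hb : ∀ (s w : ℂ) (x : Option ρ → ℂ), (∀ o, eval (vec s w x) (pderiv (some o) φ) = 0) →
      x none + ω * w = 0 → w = 0)
    (hJ₁ : ∀ θ : ℂ, θ ≠ 0 → mulAt (Ideal.span (Set.range (zSys φ θ ω (zh ρ ω)))) 0 = J₁)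
    (hJ₂ : ∀ θ : ℂ, θ ≠ 0 → mulAt (Ideal.span (Set.range (zSys φ θ ω (zv ρ q)))) 0 = J₂)
    (h1 : J₁ ≠ 0) (h2 : J₂ ≠ 0) :
    Rz q (Fintype.card ρ + 4)
      (q ^ (Fintype.card ρ + 1) + q ^ (Fintype.card ρ + 2) - E₀ + (J₁ + J₂)) :=
  z_rz_of hq h ω (fun hmul => h.finZ hq none ω 0 hb hmul) hJ₁ hJ₂ h1 h2

end

end EY
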